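import Pool.Agent.T9h50.TW.Loc

/-!
# The departure from the relative equilibrium
-/

set_option autoImplicit false
set_option exponentiation.threshold 3000

open scoped NNReal ComplexConjugate Topology
open Complex Set Filter

namespace Pool.Agent.T9h50.TW

open Pool.Agent.T9h50.TL (Spl lin bvp apriori)
open Pool.Agent.T9h50.TM (Par FA FB fld mh mh0 mh1 mh2 NearM FA_lip FB_lip LipOK fld_lip FA_rot FB_rot fld_rot FA_mass FB_mass Far FA_congr FB_congr cnv)

open Pool.Agent.T9h50.TB (E kd kd_eq ip dtm ip_self)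

lemma exp_al' : Real.exp (alW * (-22)) ≤ 6 / 10 ^ 12 := by
  have h1 := Real.exp_one_gt_d9
  have e : Real.exp (alW * (-22)) ≤ (Real.exp 1 ^ 26)⁻¹ := by
    rw [← Real.exp_nat_mul, ← Real.exp_neg]
    apply Real.exp_le_exp.2
    have := alW_gt
    norm_num at this ⊢
    linarith
  refine e.trans ?_
  have h2 : (2.7182818283 : ℝ) ^ 26 ≤ Real.exp 1 ^ 26 := by gcongr
  refine (inv_anti₀ (by norm_num) h2).trans ?_
  norm_num

lemma exp_800 : 1 / 10 ^ 400 ≤ Real.exp (4 / 5 * (-1000)) := by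
  have h1 := Real.exp_one_lt_d9
  have e : Real.exp (4 / 5 * (-1000)) = (Real.exp 1 ^ 800)⁻¹ := by
    rw [← Real.exp_nat_mul, ← Real.exp_neg]; congr 1; norm_num
  rw [e, ← one_div]
  apply one_div_le_one_div_of_le (by positivity)
  calc Real.exp 1 ^ 800 ≤ 3 ^ 800 := by
        gcongr; linarith
    _ ≤ 10 ^ 400 := by norm_num

lemma exp_150 : Real.exp (-150) ≤ 1 / 10 ^ 65 := by
  have h1 := Real.exp_one_gt_d9
  have e : Real.exp (-150) = (Real.exp 1 ^ 150)⁻¹ := by
    rw [← Real.exp_nat_mul, ← Real.exp_neg]; congr 1; norm_num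
  rw [e]
  have h2 : (2.7182818283 : ℝ) ^ 150 ≤ Real.exp 1 ^ 150 := by gcongr
  refine (inv_anti₀ (by norm_num) h2).trans ?_
  norm_num

/-- the defect of the curve in terms of a slower exponential function -/
lemma defect_le {s : ℝ} (hs : s ≤ 0) :
    2 / 10 ^ 71 * Real.exp (alW * (s + -22)) + 1 / 10 ^ 36 * Real.exp (4 * alW * (s + -22)) ≤
      15 / 10 ^ 82 * Real.exp (4 / 5 * s) := by
  have ha := alW_gt
  have h1 : Real.exp (alW * (s + -22)) ≤ 6 / 10 ^ 12 * Real.exp (4 / 5 * s) := by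
    have e : Real.exp (alW * (s + -22)) = Real.exp (alW * -22) * Real.exp (alW * s) := by
      rw [← Real.exp_add]; congr 1; ring
    rw [e]
    have h2 : Real.exp (alW * s) ≤ Real.exp (4 / 5 * s) := by
      apply Real.exp_le_exp.2
      norm_num at ha
      nlinarith
    exact mul_le_mul exp_al' h2 (Real.exp_pos _).le (by norm_num)
  have h3 : Real.exp (4 / 5 * s) ≤ 1 := Real.exp_le_one_iff.2 (by linarith)
  have h0 := Real.exp_pos (4 / 5 * s)
  have h4 : Real.exp (4 * alW * (s + -22)) ≤ (6 / 10 ^ 12) ^ 4 * Real.exp (4 / 5 * s) := by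
    rw [← exp_four]
    have h5 : Real.exp (alW * (s + -22)) ^ 4 ≤ (6 / 10 ^ 12 * Real.exp (4 / 5 * s)) ^ 4 := by
      gcongr
    refine h5.trans ?_
    rw [mul_pow]
    have h6 : Real.exp (4 / 5 * s) ^ 4 ≤ Real.exp (4 / 5 * s) := by
      calc Real.exp (4 / 5 * s) ^ 4 ≤ Real.exp (4 / 5 * s) ^ 1 :=
            pow_le_pow_of_le_one h0.le h3 (by norm_num)
        _ = _ := pow_one _
    gcongr
  calc _ ≤ 2 / 10 ^ 71 * (6 / 10 ^ 12 * Real.exp (4 / 5 * s)) +
        1 / 10 ^ 36 * ((6 / 10 ^ 12) ^ 4 * Real.exp (4 / 5 * s)) := by gcongr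
    _ = (2 / 10 ^ 71 * (6 / 10 ^ 12) + 1 / 10 ^ 36 * (6 / 10 ^ 12) ^ 4) * Real.exp (4 / 5 * s) := by ring
    _ ≤ _ := by
        apply mul_le_mul_of_nonneg_right _ h0.le
        norm_num

theorem loc {κ : ℝ} {m : Fin 3 → ℝ} {γ : ℝ → E} (h : Frm κ m γ) {V : Set E} (hV : V ∈ 𝓝 (γ 0)) :
    ∃ x ∈ V, ∃ T : ℝ, 0 ≤ T ∧ ∃ y : ℝ → E, y 0 = x ∧
      (∀ t ∈ Icc 0 T, HasDerivAt y (fld P0 m (y t)) t) ∧ (∀ t ∈ Icc 0 T, Far P0 0 (y t)) ∧
      ∃ u : ℂ, ‖u‖ = 1 ∧ ‖u • y T - cE0 (-22)‖ ≤ 1 / 10 ^ 69 := by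
  have hκ0 := h.κ0
  have hκ1 : κ ≤ 1 / 10 ^ 80 * (1 / 10 ^ 400) := h.κ1.trans (by norm_num)
  have hκ2 : κ ≤ 1 / 10 ^ 80 := h.κ1.trans (by norm_num)
  obtain ⟨r, hr0, hr⟩ := Metric.mem_nhds_iff.1 hV
  set R : ℝ := 8 / 10 ^ 11 with hR
  -- the length of the time interval
  obtain ⟨T, hT1, hT2⟩ : ∃ T : ℝ, 1000 ≤ T ∧ Real.exp (19 / 20 * (0 - T)) < r := by
    have h1 : Tendsto (fun T : ℝ => Real.exp (19 / 20 * (0 - T))) atTop (𝓝 0) := by
      apply Real.tendsto_exp_atBot.comp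
      have h2 : Tendsto (fun T : ℝ => -(19 / 20) * T) atTop atBot :=
        tendsto_id.const_mul_atTop_of_neg (by norm_num)
      refine h2.congr fun T => ?_
      show -(19 / 20) * T = 19 / 20 * (0 - T)
      ring
    exact ((eventually_ge_atTop (1000 : ℝ)).and (h1.eventually_lt_const hr0)).exists
  have hT0 : 0 ≤ T := by linarith
  -- the boundary value problem
  set c : ℝ → E := fun t => cE0 (t - T + -22) with hc
  set c' : ℝ → E := fun t => cE0' (t - T + -22) with hc'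
  have hcd : ∀ t, HasDerivAt c (c' t) t := by
    intro t
    have h1 : HasDerivAt (fun s : ℝ => s - T + -22) 1 t := by
      simpa using ((hasDerivAt_id t).sub_const T).add_const (-22)
    have := (hasDerivAt_cE0 (t - T + -22)).scomp t h1
    rw [one_smul] at this
    exact this
  have hcn : ∀ t, t ≤ T → ‖c t - xre‖ ≤ 6 / 1000 * Real.exp (alW * (t - T + -22)) := fun t ht =>
    cE0_near (by linarith)
  have hexp24 : ∀ t, t ≤ T → Real.exp (alW * (t - T + -22)) ≤ 6 / 10 ^ 12 := by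
    intro t ht
    refine le_trans (Real.exp_le_exp.2 ?_) exp_al'
    have := alW_gt
    norm_num at this
    nlinarith
  set zT : ℂ := (Sm (c T - xre)).1 with hzT
  have hzTn : 8 * ‖zT‖ ≤ R := by
    have h1 : ‖zT‖ ≤ ‖Sm (c T - xre)‖ := norm_fst_le _
    have h2 := Sm_bound (c T - xre)
    have h3 := hcn T le_rfl
    have h4 := hexp24 T le_rfl
    rw [hR]
    norm_num at h3 h4 ⊢
    linarith
  set N : ℝ → ℂ × FF → ℂ × FF := fun t w => Sm (NE m γ t (SiF w)) with hN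
  have hρ0 : (1 : ℝ) / 10 ^ 8 ≤ 1 / 200 := by norm_num
  have hρr : 4 * κ + 113 * R ≤ 1 / 10 ^ 8 := by
    rw [hR]; norm_num at hκ2 ⊢; linarith
  have hNlip : ∀ t ∈ Icc 0 T, ∀ x y : ℂ × FF, ‖x‖ ≤ R → ‖y‖ ≤ R → ‖N t x - N t y‖ ≤ 9 / 1000 * ‖x - y‖ := by
    intro t ht x y hx hy
    have b1 : ‖SiF x‖ ≤ 113 * R := (SiF_bound x).trans (by gcongr)
    have b2 : ‖SiF y‖ ≤ 113 * R := (SiF_bound y).trans (by gcongr)
    have b3 := NE_lip h ht.1 hρ0 hρr b1 b2
    have b4 : ‖SiF x - SiF y‖ ≤ 113 * ‖x - y‖ := by rw [SiF_sub]; exact SiF_bound _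
    simp only [hN]
    rw [← map_sub]
    refine (Sm_bound _).trans ?_
    calc 96 * ‖NE m γ t (SiF x) - NE m γ t (SiF y)‖ ≤ 96 * ((24 * κ + 80 * (1 / 10 ^ 8)) * ‖SiF x - SiF y‖) := by
          gcongr
      _ ≤ 96 * ((24 * (1 / 10 ^ 80) + 80 * (1 / 10 ^ 8)) * (113 * ‖x - y‖)) := by gcongr
      _ = (96 * (24 * (1 / 10 ^ 80) + 80 * (1 / 10 ^ 8)) * 113) * ‖x - y‖ := by ring
      _ ≤ _ := by
          apply mul_le_mul_of_nonneg_right _ (norm_nonneg _)
          norm_num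
  have hNc : ContinuousOn (fun p : ℝ × (ℂ × FF) => N p.1 p.2) (Icc 0 T ×ˢ univ) := by
    have h1 : Continuous (fun p : ℝ × (ℂ × FF) => (p.1, SiF p.2)) :=
      continuous_fst.prodMk (continuous_SiF.comp continuous_snd)
    have h2 := (NE_cont h (T := T)).comp h1.continuousOn (s := Icc 0 T ×ˢ univ)
      (fun p hp => ⟨hp.1, mem_univ _⟩)
    exact Sm.continuous.comp_continuousOn h2
  obtain ⟨w, w1, w2, w3, w4⟩ := bvp (ν := 19 / 20) (spl (by norm_num) (by norm_num) le_rfl) hT0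
    (by rw [hR]; norm_num) (ε := 9 / 1000) (by norm_num) (by norm_num) hzTn
    (fun t _ => by simp only [hN, SiF_zero, NE_zero, map_zero]) hNc hNlip
  have hw1 : ∀ t ∈ Icc 0 T, ‖w t‖ ≤ R := by
    intro t ht
    refine (w4 t ht).trans ?_
    have : Real.exp (19 / 20 * (t - T)) ≤ 1 := Real.exp_le_one_iff.2 (by linarith [ht.2])
    have hR0 : 0 ≤ R := by rw [hR]; norm_num
    exact mul_le_of_le_one_right hR0 this
  set D : ℝ → E := fun t => SiF (w t) with hD
  have hDd : ∀ t ∈ Icc 0 T, HasDerivAt D (Gf (D t) + NE m γ t (D t)) t := by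
    intro t ht
    have k := (SiC.hasFDerivAt (x := w t)).comp_hasDerivAt t (w3 t ht)
    refine k.congr_deriv ?_
    rw [map_add, SiC_apply, SiC_apply, Si_lin]
    simp only [hN, Si_S]
    rfl
  have hDn : ∀ t ∈ Icc 0 T, ‖D t‖ ≤ 113 * R := fun t ht => (SiF_bound _).trans (by
    have := hw1 t ht
    gcongr)
  set y : ℝ → E := fun t => γ t + conj (vf γ t) • D t with hy
  have hyd : ∀ t ∈ Icc 0 T, HasDerivAt y (fld P0 m (y t)) t := fun t ht => sol_of_D h hDd ht
  have hvy : ∀ t, 0 ≤ t → vf γ t • y t = vf γ t • γ t + D t := by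
    intro t ht
    have hvv : vf γ t * conj (vf γ t) = 1 := by
      rw [Complex.mul_conj, Complex.normSq_eq_norm_sq, h.vn ht]; norm_num
    simp only [hy]
    rw [smul_add, smul_smul, hvv, one_smul]
  -- the difference with the curve
  set wd : ℝ → ℂ × FF := fun t => w t - Sm (c t - xre) with hwd
  set wd' : ℝ → ℂ × FF := fun t => (lin lam MC LC (w t) + N t (w t)) - Sm (c' t) with hwd'
  have hsub : Icc (T - 1000) T ⊆ Icc 0 T := Icc_subset_Icc (by linarith) le_rfl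
  have hwdd : ∀ t ∈ Icc (T - 1000) T, HasDerivAt wd (wd' t) t := by
    intro t ht
    have k1 := (Sm.hasFDerivAt (x := c t - xre)).comp_hasDerivAt t ((hcd t).sub_const xre)
    exact (w3 t (hsub ht)).sub k1
  have hSd : ∀ t, D t - (c t - xre) = SiF (wd t) := by
    intro t
    simp only [hD, hwd]
    rw [← SiF_sub, Si_S]
  have hest : ∀ t ∈ Icc (T - 1000) T, ‖wd' t - lin lam MC LC (wd t)‖ ≤ 9 / 1000 * ‖wd t‖ +
      1 / 10 ^ 75 * Real.exp (4 / 5 * (t - T)) := by
    intro t ht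
    have ht0 := (hsub ht)
    have e : wd' t - lin lam MC LC (wd t) = Sm (NE m γ t (D t) - (c' t - Gf (c t - xre))) := by
      simp only [hwd', hwd, hN]
      rw [lin_sub', ← Sm_G, map_sub, map_sub]
      abel
    have hd := (cE0_defect (t := t - T + -22) (by linarith [ht.2])).1
    have hcr : ‖c t - xre‖ ≤ 1 / 10 ^ 8 := by
      have h3 := hcn t ht.2
      have h4 := hexp24 t ht.2
      norm_num at h3 h4 ⊢
      linarith
    have k := NE_cmp h ht0.1 hρ0 hρr (hDn t ht0) hcr hd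
    rw [hSd] at k
    have k2 := SiF_bound (wd t)
    have k3 := defect_le (s := t - T) (by linarith [ht.2])
    have k4 : 1 / 10 ^ 400 ≤ Real.exp (4 / 5 * (t - T)) :=
      exp_800.trans (Real.exp_le_exp.2 (by linarith [ht.1]))
    have k5 : κ ≤ 1 / 10 ^ 80 * Real.exp (4 / 5 * (t - T)) := hκ1.trans (by gcongr)
    rw [e]
    refine (Sm_bound _).trans ?_
    have k6 : 24 * κ * (113 * R) ≤ κ := by
      have : 24 * (113 * R) ≤ 1 := by rw [hR]; norm_num
      nlinarith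
    have k7 := norm_nonneg (wd t)
    norm_num at k k2 k3 k5 k6 ⊢
    linarith
  have hAd : ‖(wd T).1‖ ≤ 0 := by
    have : (wd T).1 = 0 := by
      simp only [hwd, Prod.fst_sub]
      rw [w1, hzT, sub_self]
    rw [this, norm_zero]
  have hBd : ‖(wd (T - 1000)).2‖ ≤ 1 / 10 ^ 75 * Real.exp (4 / 5 * ((T - 1000) - T)) := by
    have hm : T - 1000 ∈ Icc 0 T := ⟨by linarith, by linarith⟩
    have k1 := w4 _ hm
    have k2 := Sm_bound (c (T - 1000) - xre)
    have k3 := hcn (T - 1000) (by linarith)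
    have e0 : T - 1000 - T = -1000 := by ring
    rw [e0] at k1 k3 ⊢
    have k4 : Real.exp (19 / 20 * -1000) = Real.exp (4 / 5 * -1000) * Real.exp (-150) := by
      rw [← Real.exp_add]; congr 1; norm_num
    have k5 : Real.exp (alW * (-1000 + -22)) ≤ Real.exp (4 / 5 * -1000) * Real.exp (-300) := by
      rw [← Real.exp_add]
      apply Real.exp_le_exp.2
      have := alW_gt
      norm_num at this ⊢
      linarith
    have k6 := exp_150
    have k6' : Real.exp (4 / 5 * -1000) * Real.exp (-300) ≤ Real.exp (4 / 5 * -1000) * (1 / 10 ^ 130) := by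
      have e3 : Real.exp (-300) = Real.exp (-150) * Real.exp (-150) := by rw [← Real.exp_add]; norm_num
      have h9 : Real.exp (-300) ≤ 1 / 10 ^ 130 := by
        rw [e3]
        calc Real.exp (-150) * Real.exp (-150) ≤ 1 / 10 ^ 65 * (1 / 10 ^ 65) :=
              mul_le_mul exp_150 exp_150 (Real.exp_pos _).le (by norm_num)
          _ = 1 / 10 ^ 130 := by norm_num
      gcongr
    have k7 := Real.exp_pos (4 / 5 * -1000)
    have k8 : Real.exp (4 / 5 * -1000) * Real.exp (-150) ≤ Real.exp (4 / 5 * -1000) * (1 / 10 ^ 65) := by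
      gcongr
    have k9 : ‖(wd (T - 1000)).2‖ ≤ ‖w (T - 1000)‖ + ‖Sm (c (T - 1000) - xre)‖ :=
      (norm_snd_le _).trans (norm_sub_le _ _)
    rw [k4] at k1
    refine k9.trans ?_
    have k10 : ‖w (T - 1000)‖ ≤ 8 / 10 ^ 11 * (Real.exp (4 / 5 * -1000) * (1 / 10 ^ 65)) :=
      k1.trans (mul_le_mul_of_nonneg_left k8 (by norm_num))
    have k11 : ‖Sm (c (T - 1000) - xre)‖ ≤ 96 * (6 / 1000 * (Real.exp (4 / 5 * -1000) * (1 / 10 ^ 130))) :=
      k2.trans (mul_le_mul_of_nonneg_left (k3.trans (mul_le_mul_of_nonneg_left (k5.trans k6')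
        (by norm_num))) (by norm_num))
    generalize Real.exp (4 / 5 * -1000) = X at k10 k11 k7 ⊢
    norm_num at k10 k11 ⊢
    linarith
  have hfin := apriori (ν := 4 / 5) (spl (by norm_num) (by norm_num) (by norm_num)) (ε := 9 / 1000)
    (by norm_num) (by norm_num) (η := 1 / 10 ^ 75) (by norm_num) (by linarith) hwdd hest hAd hBd
    (t := T) ⟨by linarith, le_rfl⟩
  have hTT : Real.exp (4 / 5 * (T - T)) = 1 := by rw [sub_self, mul_zero, Real.exp_zero]
  rw [hTT, mul_one] at hfin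
  refine ⟨y 0, ?_, T, hT0, y, rfl, hyd, fun t ht => ?_, vf γ T, h.vn hT0, ?_⟩
  · apply hr
    rw [Metric.mem_ball, dist_eq_norm]
    simp only [hy]
    rw [add_sub_cancel_left, norm_smul, Complex.norm_conj, h.vn le_rfl, one_mul]
    have k1 := w4 0 ⟨le_rfl, hT0⟩
    have k2 := SiF_bound (w 0)
    have k3 := Real.exp_pos (19 / 20 * (0 - T))
    rw [hR] at k1
    simp only [hD]
    norm_num at k1 k2 k3 hT2 ⊢
    linarith
  · apply Far.rot (h.vn ht.1)
    rw [hvy t ht.1]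
    have hd : dist (vf γ t • γ t + D t) xre ≤ 1 / 10 ^ 8 := by
      rw [dist_eq_norm]
      have e3 : vf γ t • γ t + D t - xre = (vf γ t • γ t - xre) + D t := by abel
      rw [e3]
      exact (norm_add_le _ _).trans ((add_le_add (h.cl t ht.1) (hDn t ht)).trans hρr)
    exact (far_xre.of_dist hd).mono (by norm_num)
  · rw [hvy T hT0]
    have e3 : vf γ T • γ T + D T - cE0 (-22) = (vf γ T • γ T - xre) + SiF (wd T) := by
      rw [← hSd]
      simp only [hc, sub_self, zero_add]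
      abel
    rw [e3]
    refine (norm_add_le _ _).trans ?_
    have k1 := h.cl T hT0
    have k2 := SiF_bound (wd T)
    norm_num at k1 k2 hfin hκ2 ⊢
    linarith

end Pool.Agent.T9h50.TW
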