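import Pool.Agent.T9h50.TW.Spc2

/-!
# The splitting of the state space: the linear maps
-/

set_option autoImplicit false

open scoped NNReal ComplexConjugate Topology
open Complex Set Filter

namespace Pool.Agent.T9h50.TW

open Pool.Agent.T9h50.TM (Par FA FB fld mh)

open Pool.Agent.T9h50.TB (E kd)

lemma f_add (a b c d : ℂ) : fX (a + c) (b + d) = fX a b + fX c d ∧ fY (a + c) (b + d) = fY a b + fY c d ∧
    fx (a + c) (b + d) = fx a b + fx c d ∧ fy (a + c) (b + d) = fy a b + fy c d := by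
  simp only [fX, fY, fx, fy, Complex.add_re, Complex.add_im]
  refine ⟨by ring, by ring, by ring, by ring⟩

lemma g_add (h k : E) : gX (h + k) = gX h + gX k ∧ gY (h + k) = gY h + gY k ∧ gP (h + k) = gP h + gP k ∧
    gQ (h + k) = gQ h + gQ k ∧ gx (h + k) = gx h + gx k ∧ gy (h + k) = gy h + gy k ∧
    gr (h + k) = gr h + gr k ∧ gs (h + k) = gs h + gs k := by
  refine ⟨(f_add _ _ _ _).1, (f_add _ _ _ _).2.1, ?_, ?_, (f_add _ _ _ _).2.2.1, (f_add _ _ _ _).2.2.2, ?_, ?_⟩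
  · show 7 / 2 * fX (h.2.2.1 + k.2.2.1) (h.2.2.2 + k.2.2.2) = _
    rw [(f_add _ _ _ _).1, gP, gP]; ring
  · show 7 / 2 * fY (h.2.2.1 + k.2.2.1) (h.2.2.2 + k.2.2.2) = _
    rw [(f_add _ _ _ _).2.1, gQ, gQ]; ring
  · show 7 / 2 * fx (h.2.2.1 + k.2.2.1) (h.2.2.2 + k.2.2.2) = _
    rw [(f_add _ _ _ _).2.2.1, gr, gr]; ring
  · show 7 / 2 * fy (h.2.2.1 + k.2.2.1) (h.2.2.2 + k.2.2.2) = _
    rw [(f_add _ _ _ _).2.2.2, gs, gs]; ring

lemma g_smul (c : ℝ) (h : E) : gX (c • h) = c * gX h ∧ gY (c • h) = c * gY h ∧ gP (c • h) = c * gP h ∧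
    gQ (c • h) = c * gQ h ∧ gx (c • h) = c * gx h ∧ gy (c • h) = c * gy h ∧
    gr (c • h) = c * gr h ∧ gs (c • h) = c * gs h := by
  refine ⟨(f_smul _ _ _).1, (f_smul _ _ _).2.1, ?_, ?_, (f_smul _ _ _).2.2.1, (f_smul _ _ _).2.2.2, ?_, ?_⟩
  · show 7 / 2 * fX (c • h.2.2.1) (c • h.2.2.2) = _
    rw [(f_smul _ _ _).1, gP]; ring
  · show 7 / 2 * fY (c • h.2.2.1) (c • h.2.2.2) = _
    rw [(f_smul _ _ _).2.1, gQ]; ring
  · show 7 / 2 * fx (c • h.2.2.1) (c • h.2.2.2) = _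
    rw [(f_smul _ _ _).2.2.1, gr]; ring
  · show 7 / 2 * fy (c • h.2.2.1) (c • h.2.2.2) = _
    rw [(f_smul _ _ _).2.2.2, gs]; ring

lemma mk_add (a b c d : ℝ) : (⟨a + c, b + d⟩ : ℂ) = ⟨a, b⟩ + ⟨c, d⟩ := rfl

lemma mk_smul (r a b : ℝ) : (⟨r * a, r * b⟩ : ℂ) = (r : ℝ) • (⟨a, b⟩ : ℂ) := by
  apply Complex.ext <;> simp

/-- the functionals as a linear map -/
noncomputable def SL : E →ₗ[ℝ] ℂ × FF where
  toFun h := (lU h, lS h, l2 h, l3 h)
  map_add' h k := by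
    obtain ⟨g1, g2, g3, g4, g5, g6, g7, g8⟩ := g_add h k
    refine Prod.ext ?_ (Prod.ext ?_ (Prod.ext ?_ ?_))
    · show lU (h + k) = lU h + lU k
      simp only [lU, g1, g2, g3, g4]; push_cast; ring
    · show lS (h + k) = lS h + lS k
      simp only [lS, g1, g2, g3, g4]; push_cast; ring
    · show l2 (h + k) = l2 h + l2 k
      simp only [l2, g5, g6, g7, g8]
      rw [← mk_add]; congr 1 <;> ring
    · show l3 (h + k) = l3 h + l3 k
      simp only [l3, g5, g6, g7, g8]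
      rw [← mk_add]; congr 1 <;> ring
  map_smul' c h := by
    obtain ⟨g1, g2, g3, g4, g5, g6, g7, g8⟩ := g_smul c h
    refine Prod.ext ?_ (Prod.ext ?_ (Prod.ext ?_ ?_))
    · show lU (c • h) = (c : ℝ) • lU h
      simp only [lU, g1, g2, g3, g4, Complex.real_smul]; push_cast; ring
    · show lS (c • h) = (c : ℝ) • lS h
      simp only [lS, g1, g2, g3, g4, Complex.real_smul]; push_cast; ring
    · show l2 (c • h) = (c : ℝ) • l2 h
      simp only [l2, g5, g6, g7, g8]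
      rw [← mk_smul]; congr 1 <;> ring
    · show l3 (c • h) = (c : ℝ) • l3 h
      simp only [l3, g5, g6, g7, g8]
      rw [← mk_smul]; congr 1 <;> ring

noncomputable def Sm : E →L[ℝ] ℂ × FF := LinearMap.toContinuousLinearMap SL

lemma Sm_apply (h : E) : Sm h = (lU h, lS h, l2 h, l3 h) := rfl

/-- coordinates from the functionals -/
noncomputable def uX (w : ℂ × FF) : ℝ := tX w.1 + tX w.2.1
noncomputable def uY (w : ℂ × FF) : ℝ := tY w.1 - tY w.2.1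
noncomputable def uP (w : ℂ × FF) : ℝ := tP w.1 - tP w.2.1
noncomputable def uQ (w : ℂ × FF) : ℝ := tQ w.1 + tQ w.2.1
noncomputable def ux (w : ℂ × FF) : ℝ := 10 * s3 / 3 * w.2.2.1.re + 20 / 3 * w.2.2.2.re
noncomputable def us (w : ℂ × FF) : ℝ := -(10 * w.2.2.2.re) - 10 * s3 * w.2.2.1.re
noncomputable def uy (w : ℂ × FF) : ℝ := 20 * w.2.2.1.im + 100 * w.2.2.2.im
noncomputable def ur (w : ℂ × FF) : ℝ := -(100 * w.2.2.2.im) - 10 * w.2.2.1.im

/-- the vectors `a`, `b` with given coordinates -/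
noncomputable def vA (X Y x y : ℝ) : ℂ := ⟨(y - Y - X - x) / 2, s3 * ((X - x) / 2 - (Y + y) / 6)⟩
noncomputable def vB (X Y x y : ℝ) : ℂ := ⟨X + x, s3 * ((Y + y) / 3)⟩

lemma f_v (X Y x y : ℝ) : fX (vA X Y x y) (vB X Y x y) = X ∧ fY (vA X Y x y) (vB X Y x y) = Y ∧
    fx (vA X Y x y) (vB X Y x y) = x ∧ fy (vA X Y x y) (vB X Y x y) = y := by
  simp only [fX, fY, fx, fy, vA, vB]
  refine ⟨?_, ?_, ?_, ?_⟩ <;> ring_nf <;> simp only [s3_2] <;> ring

lemma v_f (a b : ℂ) : vA (fX a b) (fY a b) (fx a b) (fy a b) = a ∧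
    vB (fX a b) (fY a b) (fx a b) (fy a b) = b := by
  constructor
  · apply Complex.ext
    · simp only [fX, fY, fx, fy, vA]; ring
    · simp only [fX, fY, fx, fy, vA]; ring_nf; simp only [s3_2]; ring
  · apply Complex.ext
    · simp only [fX, fY, fx, fy, vB]; ring
    · simp only [fX, fY, fx, fy, vB]; ring_nf; simp only [s3_2]; ring

noncomputable def SiF (w : ℂ × FF) : E :=
  (vA (uX w) (uY w) (ux w) (uy w), vB (uX w) (uY w) (ux w) (uy w),
    (2 / 7 : ℝ) • vA (uP w) (uQ w) (ur w) (us w), (2 / 7 : ℝ) • vB (uP w) (uQ w) (ur w) (us w))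

lemma g_Si (w : ℂ × FF) : gX (SiF w) = uX w ∧ gY (SiF w) = uY w ∧ gP (SiF w) = uP w ∧ gQ (SiF w) = uQ w ∧
    gx (SiF w) = ux w ∧ gy (SiF w) = uy w ∧ gr (SiF w) = ur w ∧ gs (SiF w) = us w := by
  have h1 := f_v (uX w) (uY w) (ux w) (uy w)
  have h2 := f_v (uP w) (uQ w) (ur w) (us w)
  refine ⟨h1.1, h1.2.1, ?_, ?_, h1.2.2.1, h1.2.2.2, ?_, ?_⟩
  · simp only [gP, SiF, (f_smul _ _ _).1, h2.1]; ring
  · simp only [gQ, SiF, (f_smul _ _ _).2.1, h2.2.1]; ring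
  · simp only [gr, SiF, (f_smul _ _ _).2.2.1, h2.2.2.1]; ring
  · simp only [gs, SiF, (f_smul _ _ _).2.2.2, h2.2.2.2]; ring

lemma S_Si (w : ℂ × FF) : Sm (SiF w) = w := by
  obtain ⟨g1, g2, g3, g4, g5, g6, g7, g8⟩ := g_Si w
  rw [Sm_apply]
  have h := t_inv' w.1 w.2.1
  refine Prod.ext ?_ (Prod.ext ?_ (Prod.ext ?_ ?_))
  · show lU (SiF w) = w.1
    rw [lU, g1, g2, g3, g4]; exact h.1
  · show lS (SiF w) = w.2.1
    rw [lS, g1, g2, g3, g4]; exact h.2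
  · show l2 (SiF w) = w.2.2.1
    rw [l2, g5, g6, g7, g8]
    apply Complex.ext
    · simp only [ux, us]; ring_nf; simp only [s3_2]; ring
    · simp only [ur, uy]; ring
  · show l3 (SiF w) = w.2.2.2
    rw [l3, g5, g6, g7, g8]
    apply Complex.ext
    · simp only [ux, us]; ring
    · simp only [ur, uy]; ring

lemma Si_S (h : E) : SiF (Sm h) = h := by
  have t := t_inv (gX h) (gY h) (gP h) (gQ h)
  have e1 : uX (Sm h) = gX h := t.1
  have e2 : uY (Sm h) = gY h := t.2.1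
  have e3 : uP (Sm h) = gP h := t.2.2.1
  have e4 : uQ (Sm h) = gQ h := t.2.2.2
  have e5 : ux (Sm h) = gx h := by
    simp only [ux, Sm_apply, l2, l3]; ring_nf; simp only [s3_2]; ring
  have e6 : uy (Sm h) = gy h := by
    simp only [uy, Sm_apply, l2, l3]; ring
  have e7 : ur (Sm h) = gr h := by
    simp only [ur, Sm_apply, l2, l3]; ring
  have e8 : us (Sm h) = gs h := by
    simp only [us, Sm_apply, l2, l3]; ring_nf; simp only [s3_2]; ring
  rw [SiF, e1, e2, e3, e4, e5, e6, e7, e8]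
  have p1 := v_f h.1 h.2.1
  have p2 := v_f ((7 / 2 : ℝ) • h.2.2.1) ((7 / 2 : ℝ) • h.2.2.2)
  rw [(f_smul _ _ _).1, (f_smul _ _ _).2.1, (f_smul _ _ _).2.2.1, (f_smul _ _ _).2.2.2] at p2
  refine Prod.ext ?_ (Prod.ext ?_ (Prod.ext ?_ ?_))
  · exact p1.1
  · exact p1.2
  · show (2 / 7 : ℝ) • vA (gP h) (gQ h) (gr h) (gs h) = h.2.2.1
    simp only [gP, gQ, gr, gs]
    rw [p2.1, smul_smul]; norm_num
  · show (2 / 7 : ℝ) • vB (gP h) (gQ h) (gr h) (gs h) = h.2.2.2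
    simp only [gP, gQ, gr, gs]
    rw [p2.2, smul_smul]; norm_num

end Pool.Agent.T9h50.TW
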