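import Pool.Agent.T9h50.TW.Spc3

/-!
# The splitting of the state space: the linear maps in the new coordinates
-/

set_option autoImplicit false

open scoped NNReal ComplexConjugate Topology
open Complex Set Filter

namespace Pool.Agent.T9h50.TW

open Pool.Agent.T9h50.TL (Spl lin)
open Pool.Agent.T9h50.TM (Par FA FB fld mh)

open Pool.Agent.T9h50.TB (E kd)

/-- the linear field on the complement of the unstable directions -/
noncomputable def ML : FF →ₗ[ℝ] FF where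
  toFun β := (-(lam * β.1), -((I * (s3 : ℂ)) * β.2.1), ⟨0, -(3 / 10 * β.2.2.re)⟩)
  map_add' x y := by
    refine Prod.ext ?_ (Prod.ext ?_ ?_)
    · show -(lam * (x.1 + y.1)) = -(lam * x.1) + -(lam * y.1)
      ring
    · show -((I * (s3 : ℂ)) * (x.2.1 + y.2.1)) = -((I * (s3 : ℂ)) * x.2.1) + -((I * (s3 : ℂ)) * y.2.1)
      ring
    · show (⟨0, -(3 / 10 * (x.2.2 + y.2.2).re)⟩ : ℂ) =
        ⟨0, -(3 / 10 * x.2.2.re)⟩ + ⟨0, -(3 / 10 * y.2.2.re)⟩
      apply Complex.ext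
      · show (0 : ℝ) = 0 + 0
        ring
      · show -(3 / 10 * (x.2.2 + y.2.2).re) = -(3 / 10 * x.2.2.re) + -(3 / 10 * y.2.2.re)
        rw [Complex.add_re]; ring
  map_smul' c x := by
    refine Prod.ext ?_ (Prod.ext ?_ ?_)
    · show -(lam * (c • x.1)) = c • -(lam * x.1)
      rw [smul_neg, Complex.real_smul, Complex.real_smul]; ring
    · show -((I * (s3 : ℂ)) * (c • x.2.1)) = c • -((I * (s3 : ℂ)) * x.2.1)
      rw [smul_neg, Complex.real_smul, Complex.real_smul]; ring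
    · show (⟨0, -(3 / 10 * (c • x.2.2).re)⟩ : ℂ) = c • (⟨0, -(3 / 10 * x.2.2.re)⟩ : ℂ)
      apply Complex.ext
      · simp
      · rw [Complex.smul_im]
        show -(3 / 10 * (c • x.2.2).re) = c • -(3 / 10 * x.2.2.re)
        rw [Complex.smul_re, smul_eq_mul, smul_eq_mul]; ring

noncomputable def MC : FF →L[ℝ] FF := LinearMap.toContinuousLinearMap ML
noncomputable def LC : ℂ →L[ℝ] FF := 0

lemma MC_apply (β : FF) : MC β = (-(lam * β.1), -((I * (s3 : ℂ)) * β.2.1), ⟨0, -(3 / 10 * β.2.2.re)⟩) := rfl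

lemma LC_apply (z : ℂ) : LC z = 0 := rfl

/-- the linearised field in the new coordinates -/
lemma Sm_G (h : E) : Sm (Gf h) = lin lam MC LC (Sm h) := by
  obtain ⟨g1, g2, g3, g4, g5, g6, g7, g8⟩ := g_G h
  rw [Sm_apply, Sm_apply, lin, MC_apply, LC_apply]
  refine Prod.ext ?_ (Prod.ext ?_ (Prod.ext ?_ ?_))
  · exact lU_G h
  · show lS (Gf h) = -(lam * lS h) + 0
    rw [lS_G, add_zero]
  · show l2 (Gf h) = -((I * (s3 : ℂ)) * l2 h) + 0
    rw [add_zero]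
    apply Complex.ext
    · rw [Complex.neg_re, mulI_re]
      simp only [l2, g5, g8]
      ring
    · rw [Complex.neg_im, mulI_im]
      simp only [l2, g6, g7]
      ring_nf
      simp only [s3_2]
      ring
  · show l3 (Gf h) = (⟨0, -(3 / 10 * (l3 h).re)⟩ : ℂ) + 0
    rw [add_zero]
    apply Complex.ext
    · simp only [l3, g5, g8]
      ring
    · simp only [l3, g6, g7]
      ring

lemma norm_mk_le2 (a b : ℝ) : ‖(⟨a, b⟩ : ℂ)‖ ≤ |a| + |b| := Complex.norm_le_abs_re_add_abs_im _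

lemma LC_bound (z : ℂ) : ‖LC z‖ ≤ 54 / 1000 * ‖z‖ := by
  rw [LC_apply, norm_zero]; positivity

lemma MC_bound (β : FF) : ‖(100 : ℝ) • β + MC β‖ ≤ 100.4 * ‖β‖ := by
  have hs := s3_pos
  have hs2 : s3 ≤ 1.7321 := s3_lt.le.trans (by norm_num)
  have hb := norm_nonneg β
  have b1 : ‖β.1‖ ≤ ‖β‖ := norm_fst_le β
  have b2 : ‖β.2.1‖ ≤ ‖β‖ := (norm_fst_le β.2).trans (norm_snd_le β)
  have b3 : ‖β.2.2‖ ≤ ‖β‖ := (norm_snd_le β.2).trans (norm_snd_le β)
  have nk : ∀ {x : ℂ} {c : ℝ}, 0 ≤ c → x.re * x.re + x.im * x.im ≤ c * c → ‖x‖ ≤ c := by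
    intro x c hc h
    have : ‖x‖ ^ 2 ≤ c ^ 2 := by
      rw [← Complex.normSq_eq_norm_sq, Complex.normSq_apply, sq]; exact h
    exact abs_le_of_sq_le_sq' this hc |>.2
  rw [MC_apply, Prod.norm_def, Prod.norm_def]
  refine max_le ?_ (max_le ?_ ?_)
  · show ‖(100 : ℝ) • β.1 + -(lam * β.1)‖ ≤ _
    have e : (100 : ℝ) • β.1 + -(lam * β.1) = ((100 : ℂ) - lam) * β.1 := by
      rw [Complex.real_smul]; push_cast; ring
    rw [e, norm_mul]
    have h1 : ‖(100 : ℂ) - lam‖ ≤ 100.4 := by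
      apply nk (by norm_num)
      have e1 : ((100 : ℂ) - lam).re = 100 - aL := rfl
      have e2 : ((100 : ℂ) - lam).im = 0 - bL := rfl
      rw [e1, e2]
      nlinarith [aL_gt, aL_lt, aL_sq, bL_sq]
    gcongr
  · show ‖(100 : ℝ) • β.2.1 + -((I * (s3 : ℂ)) * β.2.1)‖ ≤ _
    have e : (100 : ℝ) • β.2.1 + -((I * (s3 : ℂ)) * β.2.1) = ((100 : ℂ) - I * (s3 : ℂ)) * β.2.1 := by
      rw [Complex.real_smul]; push_cast; ring
    rw [e, norm_mul]
    have h1 : ‖(100 : ℂ) - I * (s3 : ℂ)‖ ≤ 100.4 := by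
      apply nk (by norm_num)
      have e1 : ((100 : ℂ) - I * (s3 : ℂ)).re = 100 := by simp
      have e2 : ((100 : ℂ) - I * (s3 : ℂ)).im = -s3 := by simp
      rw [e1, e2]
      nlinarith [s3_sq]
    gcongr
  · show ‖(100 : ℝ) • β.2.2 + ⟨0, -(3 / 10 * β.2.2.re)⟩‖ ≤ _
    refine (norm_add_le _ _).trans ?_
    have h2 : ‖(⟨0, -(3 / 10 * β.2.2.re)⟩ : ℂ)‖ ≤ 34 / 100 * ‖β‖ := by
      refine (norm_mk_le2 _ _).trans ?_
      have h3 : |β.2.2.re| ≤ ‖β‖ := (Complex.abs_re_le_norm _).trans b3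
      rw [abs_zero, abs_neg, abs_mul, abs_of_pos (show (0 : ℝ) < 3 / 10 by norm_num)]
      linarith
    rw [norm_smul]
    have h100 : ‖(100 : ℝ)‖ = 100 := by norm_num
    rw [h100]
    have h5 : 100 * ‖β.2.2‖ ≤ 100 * ‖β‖ := by linarith
    have h6 : (100.4 : ℝ) * ‖β‖ = 100 * ‖β‖ + 4 / 10 * ‖β‖ := by ring
    rw [h6]
    linarith

lemma spl {ν : ℝ} (h0 : 0 ≤ ν) (h1 : 3 / 5 ≤ ν) (h2 : ν ≤ 19 / 20) : Spl lam MC LC ν (7 / 50) := by
  refine ⟨by norm_num, h0, ⟨100, by linarith, ?_, fun b => ?_⟩, fun z => ?_⟩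
  · have nk : ∀ {x : ℂ} {c : ℝ}, 0 ≤ c → x.re * x.re + x.im * x.im ≤ c * c → ‖x‖ ≤ c := by
      intro x c hc h
      have : ‖x‖ ^ 2 ≤ c ^ 2 := by
        rw [← Complex.normSq_eq_norm_sq, Complex.normSq_apply, sq]; exact h
      exact abs_le_of_sq_le_sq' this hc |>.2
    have : ‖((100 : ℝ) : ℂ) - lam‖ ≤ 98.91 := by
      apply nk (by norm_num)
      have e1 : (((100 : ℝ) : ℂ) - lam).re = 100 - aL := rfl
      have e2 : (((100 : ℝ) : ℂ) - lam).im = 0 - bL := rfl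
      rw [e1, e2]
      nlinarith [aL_gt, aL_lt, aL_sq, bL_sq]
    linarith
  · refine (MC_bound b).trans ?_
    have := norm_nonneg b
    have h3 : (100.4 : ℝ) ≤ 100 + ν - 7 / 50 := by norm_num; linarith
    gcongr
  · refine (LC_bound z).trans ?_
    exact mul_le_mul_of_nonneg_right (by norm_num) (norm_nonneg z)

end Pool.Agent.T9h50.TW
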