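import Pool.Agent.T9h50.TW.Spc5

/-!
# Estimates for the field near the relative equilibrium
-/

set_option autoImplicit false

open scoped NNReal ComplexConjugate Topology
open Complex Set Filter

namespace Pool.Agent.T9h50.TW

open Pool.Agent.T9h50.TM (Par FA FB fld mh mh0 mh1 mh2 NearM Far)

open Pool.Agent.T9h50.TB (E kd kd_eq kd_lip ip dtm ip_self hasDerivAt_inv_norm)

/-- the relative equilibrium -/
noncomputable def xre : E :=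
  (a0, 1, P0.sg⁻¹ • ((I * (s3 : ℂ)) * a0), P0.sg⁻¹ • (I * (s3 : ℂ)))

lemma norm_a0 : ‖a0‖ = 1 := by
  have : ‖a0‖ ^ 2 = 1 := by
    rw [← Complex.normSq_eq_norm_sq, Complex.normSq_apply, a0]
    nlinarith [s3_sq]
  nlinarith [norm_nonneg a0]

lemma norm_c0 : ‖c0‖ = 1 := by
  have : ‖c0‖ ^ 2 = 1 := by
    rw [← Complex.normSq_eq_norm_sq, Complex.normSq_apply, c0]
    nlinarith [s3_sq]
  nlinarith [norm_nonneg c0]

lemma a0_add : a0 + 1 = c0 := by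
  apply Complex.ext
  · simp [a0, c0]; norm_num
  · simp [a0, c0]

lemma I3_sq : (I * (s3 : ℂ)) * (I * (s3 : ℂ)) = -3 := by
  have h : ((s3 : ℂ)) * (s3 : ℂ) = 3 := by exact_mod_cast s3_sq
  linear_combination (-1 : ℂ) * h + ((s3 : ℂ) * s3) * Complex.I_mul_I

lemma norm_I3 : ‖I * (s3 : ℂ)‖ = s3 := by
  rw [norm_mul, Complex.norm_I, one_mul, Complex.norm_real, Real.norm_of_nonneg s3_pos.le]

lemma norm_xre : ‖xre.1‖ = 1 ∧ ‖xre.2.1‖ = 1 ∧ ‖xre.1 + xre.2.1‖ = 1 := by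
  refine ⟨norm_a0, norm_one, ?_⟩
  show ‖a0 + 1‖ = 1
  rw [a0_add, norm_c0]

lemma sg_inv : (P0.sg)⁻¹ = 2 / 7 := by rw [P0_sg]; norm_num

lemma norm_xre_le : ‖xre‖ ≤ 1 := by
  have h27 : ‖(2 / 7 : ℝ)‖ = 2 / 7 := by norm_num
  have hs := s3_lt
  rw [Prod.norm_def, Prod.norm_def, Prod.norm_def]
  refine max_le norm_xre.1.le (max_le norm_xre.2.1.le (max_le ?_ ?_))
  · show ‖P0.sg⁻¹ • ((I * (s3 : ℂ)) * a0)‖ ≤ 1
    rw [sg_inv, norm_smul, norm_mul, norm_a0, norm_I3, h27]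
    norm_num at hs
    linarith
  · show ‖P0.sg⁻¹ • (I * (s3 : ℂ))‖ ≤ 1
    rw [sg_inv, norm_smul, norm_I3, h27]
    norm_num at hs
    linarith

lemma far_xre : Far P0 (1 / 100) xre := by
  obtain ⟨n1, n2, n3⟩ := norm_xre
  refine ⟨?_, ?_, ?_⟩
  · rw [n1]; show (99 / 100 : ℝ) + 1 / 100 ≤ 1; norm_num
  · rw [n3]; show (99 / 100 : ℝ) + 1 / 100 ≤ 1; norm_num
  · rw [n2]; show (99 / 100 : ℝ) + 1 / 100 ≤ 1; norm_num

lemma kd_one {z : ℂ} (h : ‖z‖ = 1) : kd (99 / 100) z = z := by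
  rw [kd_eq (by rw [h]; norm_num), h]; simp

lemma FA0 (m : Fin 3 → ℝ) (a b : ℂ) : FA P0 m a b =
    -((m 0 + m 1 : ℝ) • kd (99 / 100) a) - (m 2 : ℝ) • kd (99 / 100) (a + b) + (m 2 : ℝ) • kd (99 / 100) b := rfl

lemma FB0 (m : Fin 3 → ℝ) (a b : ℂ) : FB P0 m a b =
    (m 0 : ℝ) • kd (99 / 100) a - (m 0 : ℝ) • kd (99 / 100) (a + b) - (m 1 + m 2 : ℝ) • kd (99 / 100) b := rfl

lemma fld_xre : fld P0 mh xre = (I * (s3 : ℂ)) • xre := by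
  have hA : FA P0 mh a0 1 = (I * (s3 : ℂ)) * ((I * (s3 : ℂ)) * a0) := by
    rw [← mul_assoc, I3_sq, FA0, a0_add, kd_one norm_a0, kd_one norm_c0, kd_one norm_one, mh0, mh1, mh2,
      ← a0_add]
    simp only [Complex.real_smul]; push_cast; ring
  have hB : FB P0 mh a0 1 = (I * (s3 : ℂ)) * (I * (s3 : ℂ)) := by
    rw [I3_sq, FB0, a0_add, kd_one norm_a0, kd_one norm_c0, kd_one norm_one, mh0, mh1, mh2,
      ← a0_add]
    simp only [Complex.real_smul]; push_cast; ring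
  have hs : P0.sg ≠ 0 := P0.sg0.ne'
  refine Prod.ext ?_ (Prod.ext ?_ (Prod.ext ?_ ?_))
  · show P0.sg • (P0.sg⁻¹ • ((I * (s3 : ℂ)) * a0)) = (I * (s3 : ℂ)) * a0
    rw [smul_smul, mul_inv_cancel₀ hs, one_smul]
  · show P0.sg • (P0.sg⁻¹ • (I * (s3 : ℂ))) = (I * (s3 : ℂ)) * 1
    rw [smul_smul, mul_inv_cancel₀ hs, one_smul, mul_one]
  · show P0.sg⁻¹ • FA P0 mh a0 1 = (I * (s3 : ℂ)) * (P0.sg⁻¹ • ((I * (s3 : ℂ)) * a0))
    rw [hA]; simp only [Complex.real_smul]; ring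
  · show P0.sg⁻¹ • FB P0 mh a0 1 = (I * (s3 : ℂ)) * (P0.sg⁻¹ • (I * (s3 : ℂ)))
    rw [hB]; simp only [Complex.real_smul]; ring

/-- the quadratic error of the linearisation -/
noncomputable def Qd (x y : E) : E := fld P0 mh x - fld P0 mh y - (Gf (x - y) + (I * (s3 : ℂ)) • (x - y))

lemma Gf_sub (x y : E) : Gf (x - y) = Gf x - Gf y := by
  have hlk : ∀ z a b : ℂ, lk z (a - b) = lk z a - lk z b := by
    intro z a b
    simp only [lk, Complex.sub_re, Complex.sub_im, Complex.real_smul]; push_cast; ring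
  have hA : LAf (x.1 - y.1) (x.2.1 - y.2.1) = LAf x.1 x.2.1 - LAf y.1 y.2.1 := by
    have e : (x.1 - y.1) + (x.2.1 - y.2.1) = (x.1 + x.2.1) - (y.1 + y.2.1) := by ring
    rw [LAf, LAf, LAf, e, hlk, hlk, hlk]
    simp only [Complex.real_smul]; ring
  have hB : LBf (x.1 - y.1) (x.2.1 - y.2.1) = LBf x.1 x.2.1 - LBf y.1 y.2.1 := by
    have e : (x.1 - y.1) + (x.2.1 - y.2.1) = (x.1 + x.2.1) - (y.1 + y.2.1) := by ring
    rw [LBf, LBf, LBf, e, hlk, hlk, hlk]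
    simp only [Complex.real_smul]; ring
  refine Prod.ext ?_ (Prod.ext ?_ (Prod.ext ?_ ?_))
  · show P0.sg • (x.2.2.1 - y.2.2.1) - (I * (s3 : ℂ)) * (x.1 - y.1) =
      (P0.sg • x.2.2.1 - (I * (s3 : ℂ)) * x.1) - (P0.sg • y.2.2.1 - (I * (s3 : ℂ)) * y.1)
    simp only [Complex.real_smul]; ring
  · show P0.sg • (x.2.2.2 - y.2.2.2) - (I * (s3 : ℂ)) * (x.2.1 - y.2.1) =
      (P0.sg • x.2.2.2 - (I * (s3 : ℂ)) * x.2.1) - (P0.sg • y.2.2.2 - (I * (s3 : ℂ)) * y.2.1)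
    simp only [Complex.real_smul]; ring
  · show P0.sg⁻¹ • LAf (x.1 - y.1) (x.2.1 - y.2.1) - (I * (s3 : ℂ)) * (x.2.2.1 - y.2.2.1) =
      (P0.sg⁻¹ • LAf x.1 x.2.1 - (I * (s3 : ℂ)) * x.2.2.1) - (P0.sg⁻¹ • LAf y.1 y.2.1 - (I * (s3 : ℂ)) * y.2.2.1)
    rw [hA]; simp only [Complex.real_smul]; ring
  · show P0.sg⁻¹ • LBf (x.1 - y.1) (x.2.1 - y.2.1) - (I * (s3 : ℂ)) * (x.2.2.2 - y.2.2.2) =
      (P0.sg⁻¹ • LBf x.1 x.2.1 - (I * (s3 : ℂ)) * x.2.2.2) - (P0.sg⁻¹ • LBf y.1 y.2.1 - (I * (s3 : ℂ)) * y.2.2.2)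
    rw [hB]; simp only [Complex.real_smul]; ring

lemma Qd_tele (x y x' y' : E) : Qd x y - Qd x' y' = Qd x x' - Qd y y' := by
  simp only [Qd, Gf_sub, smul_sub]; abel

lemma Qd_bound {x y : E} {ρ : ℝ} (hρ : ρ ≤ 1 / 200) (hx : ‖x - xre‖ ≤ ρ) (hy : ‖y - xre‖ ≤ ρ) :
    ‖Qd x y‖ ≤ 80 * ρ * ‖x - y‖ := by
  have hρ0 : 0 ≤ ρ := (norm_nonneg _).trans hx
  set r := ‖x - y‖ with hr
  have hr0 : 0 ≤ r := norm_nonneg _
  have nA : ‖x.1 - y.1‖ ≤ r := norm_fst_le (x - y)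
  have nB : ‖x.2.1 - y.2.1‖ ≤ r := (norm_fst_le (x - y).2).trans (norm_snd_le (x - y))
  have nC : ‖(x.1 + x.2.1) - (y.1 + y.2.1)‖ ≤ 2 * r := by
    have : (x.1 + x.2.1) - (y.1 + y.2.1) = (x.1 - y.1) + (x.2.1 - y.2.1) := by ring
    rw [this]
    exact (norm_add_le _ _).trans (by linarith)
  have c1 : ∀ z : E, ‖z - xre‖ ≤ ρ → ‖z.1 - a0‖ ≤ ρ := fun z hz => (norm_fst_le (z - xre)).trans hz
  have c2 : ∀ z : E, ‖z - xre‖ ≤ ρ → ‖z.2.1 - 1‖ ≤ ρ := fun z hz =>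
    ((norm_fst_le (z - xre).2).trans (norm_snd_le (z - xre))).trans hz
  have c3 : ∀ z : E, ‖z - xre‖ ≤ ρ → ‖z.1 + z.2.1 - c0‖ ≤ 2 * ρ := by
    intro z hz
    have : z.1 + z.2.1 - c0 = (z.1 - a0) + (z.2.1 - 1) := by rw [← a0_add]; ring
    rw [this]
    exact (norm_add_le _ _).trans (by linarith [c1 z hz, c2 z hz])
  have kA := kd_quad norm_a0 (by linarith) (c1 x hx) (c1 y hy)
  have kB := kd_quad norm_one (by linarith) (c2 x hx) (c2 y hy)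
  have kC := kd_quad norm_c0 (by linarith) (c3 x hx) (c3 y hy)
  have kA' : ‖kd (99 / 100) x.1 - kd (99 / 100) y.1 - lk a0 (x.1 - y.1)‖ ≤ 28 * ρ * r :=
    kA.trans (by gcongr)
  have kB' : ‖kd (99 / 100) x.2.1 - kd (99 / 100) y.2.1 - lk 1 (x.2.1 - y.2.1)‖ ≤ 28 * ρ * r :=
    kB.trans (by gcongr)
  have kC' : ‖kd (99 / 100) (x.1 + x.2.1) - kd (99 / 100) (y.1 + y.2.1) -
      lk c0 ((x.1 + x.2.1) - (y.1 + y.2.1))‖ ≤ 112 * ρ * r :=
    kC.trans (by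
      calc 28 * (2 * ρ) * ‖x.1 + x.2.1 - (y.1 + y.2.1)‖ ≤ 28 * (2 * ρ) * (2 * r) := by gcongr
        _ = _ := by ring)
  set dA := kd (99 / 100) x.1 - kd (99 / 100) y.1 - lk a0 (x.1 - y.1) with hdA
  set dB := kd (99 / 100) x.2.1 - kd (99 / 100) y.2.1 - lk 1 (x.2.1 - y.2.1) with hdB
  set dC := kd (99 / 100) (x.1 + x.2.1) - kd (99 / 100) (y.1 + y.2.1) -
      lk c0 ((x.1 + x.2.1) - (y.1 + y.2.1)) with hdC
  have esum : (x.1 - y.1) + (x.2.1 - y.2.1) = (x.1 + x.2.1) - (y.1 + y.2.1) := by ring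
  have eA : FA P0 mh x.1 x.2.1 - FA P0 mh y.1 y.2.1 - LAf (x.1 - y.1) (x.2.1 - y.2.1) =
      -((2 : ℝ) • dA) - (1 : ℝ) • dC + (1 : ℝ) • dB := by
    rw [LAf, esum, FA0, FA0, mh0, mh1, mh2, hdA, hdB, hdC]
    simp only [Complex.real_smul]; push_cast; ring
  have eB : FB P0 mh x.1 x.2.1 - FB P0 mh y.1 y.2.1 - LBf (x.1 - y.1) (x.2.1 - y.2.1) =
      (1 : ℝ) • dA - (1 : ℝ) • dC - (2 : ℝ) • dB := by
    rw [LBf, esum, FB0, FB0, mh0, mh1, mh2, hdA, hdB, hdC]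
    simp only [Complex.real_smul]; push_cast; ring
  have hpr : 0 ≤ ρ * r := mul_nonneg hρ0 hr0
  have n1 : ‖(2 : ℝ)‖ = 2 := by norm_num
  have n2 : ‖(1 : ℝ)‖ = 1 := by norm_num
  have n3 : ‖(1 : ℝ)‖ = 1 := by norm_num
  have n4 : ‖(2 : ℝ)‖ = 2 := by norm_num
  have n5 : ‖(2 / 7 : ℝ)‖ = 2 / 7 := by norm_num
  have bA : ‖-((2 : ℝ) • dA) - (1 : ℝ) • dC + (1 : ℝ) • dB‖ ≤ 250 * ρ * r := by
    refine (norm_add_le _ _).trans ?_
    have h1 := norm_sub_le (-((2 : ℝ) • dA)) ((1 : ℝ) • dC)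
    rw [norm_neg, norm_smul, norm_smul, n1, n2] at h1
    rw [norm_smul, n2]
    linarith
  have bB : ‖(1 : ℝ) • dA - (1 : ℝ) • dC - (2 : ℝ) • dB‖ ≤ 250 * ρ * r := by
    refine (norm_sub_le _ _).trans ?_
    have h1 := norm_sub_le ((1 : ℝ) • dA) ((1 : ℝ) • dC)
    rw [norm_smul, norm_smul, n3] at h1
    rw [norm_smul (2 : ℝ), n4]
    linarith
  have hpos : 0 ≤ 80 * ρ * r := by positivity
  rw [Qd, Prod.norm_def, Prod.norm_def, Prod.norm_def]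
  refine max_le ?_ (max_le ?_ (max_le ?_ ?_))
  · have e : (fld P0 mh x - fld P0 mh y - (Gf (x - y) + (I * (s3 : ℂ)) • (x - y))).1 = 0 := by
      show P0.sg • x.2.2.1 - P0.sg • y.2.2.1 - ((P0.sg • (x.2.2.1 - y.2.2.1) - (I * (s3 : ℂ)) * (x.1 - y.1)) +
        (I * (s3 : ℂ)) * (x.1 - y.1)) = 0
      simp only [Complex.real_smul]; ring
    rw [e, norm_zero]; exact hpos
  · have e : (fld P0 mh x - fld P0 mh y - (Gf (x - y) + (I * (s3 : ℂ)) • (x - y))).2.1 = 0 := by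
      show P0.sg • x.2.2.2 - P0.sg • y.2.2.2 - ((P0.sg • (x.2.2.2 - y.2.2.2) - (I * (s3 : ℂ)) * (x.2.1 - y.2.1)) +
        (I * (s3 : ℂ)) * (x.2.1 - y.2.1)) = 0
      simp only [Complex.real_smul]; ring
    rw [e, norm_zero]; exact hpos
  · have e : (fld P0 mh x - fld P0 mh y - (Gf (x - y) + (I * (s3 : ℂ)) • (x - y))).2.2.1 =
        P0.sg⁻¹ • (FA P0 mh x.1 x.2.1 - FA P0 mh y.1 y.2.1 - LAf (x.1 - y.1) (x.2.1 - y.2.1)) := by
      show P0.sg⁻¹ • FA P0 mh x.1 x.2.1 - P0.sg⁻¹ • FA P0 mh y.1 y.2.1 -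
        ((P0.sg⁻¹ • LAf (x.1 - y.1) (x.2.1 - y.2.1) - (I * (s3 : ℂ)) * (x.2.2.1 - y.2.2.1)) +
        (I * (s3 : ℂ)) * (x.2.2.1 - y.2.2.1)) = _
      simp only [Complex.real_smul]; ring
    rw [e, eA, norm_smul, sg_inv, n5]
    linarith
  · have e : (fld P0 mh x - fld P0 mh y - (Gf (x - y) + (I * (s3 : ℂ)) • (x - y))).2.2.2 =
        P0.sg⁻¹ • (FB P0 mh x.1 x.2.1 - FB P0 mh y.1 y.2.1 - LBf (x.1 - y.1) (x.2.1 - y.2.1)) := by
      show P0.sg⁻¹ • FB P0 mh x.1 x.2.1 - P0.sg⁻¹ • FB P0 mh y.1 y.2.1 -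
        ((P0.sg⁻¹ • LBf (x.1 - y.1) (x.2.1 - y.2.1) - (I * (s3 : ℂ)) * (x.2.2.2 - y.2.2.2)) +
        (I * (s3 : ℂ)) * (x.2.2.2 - y.2.2.2)) = _
      simp only [Complex.real_smul]; ring
    rw [e, eB, norm_smul, sg_inv, n5]
    linarith

/-- the dependence on the masses -/
lemma fld_mass {κ : ℝ} {m : Fin 3 → ℝ} (hm : NearM κ m) (x y : E) :
    ‖(fld P0 m x - fld P0 m y) - (fld P0 mh x - fld P0 mh y)‖ ≤ 6 * κ * ‖x - y‖ := by
  have h0 := hm 0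
  have h1 := hm 1
  have h2 := hm 2
  have hκ : 0 ≤ κ := (abs_nonneg _).trans h0
  set r := ‖x - y‖ with hr
  have hr0 : 0 ≤ r := norm_nonneg _
  have n1 : ‖x.1 - y.1‖ ≤ r := norm_fst_le (x - y)
  have n2 : ‖x.2.1 - y.2.1‖ ≤ r := (norm_fst_le (x - y).2).trans (norm_snd_le (x - y))
  have hab : ‖x.1 + x.2.1 - (y.1 + y.2.1)‖ ≤ 2 * r := by
    have : x.1 + x.2.1 - (y.1 + y.2.1) = (x.1 - y.1) + (x.2.1 - y.2.1) := by ring
    rw [this]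
    exact (norm_add_le _ _).trans (by linarith)
  have h99 : (0 : ℝ) < 99 / 100 := by norm_num
  have hk : ∀ {z w : ℂ} {c : ℝ}, ‖z - w‖ ≤ c → ‖kd (99 / 100) z - kd (99 / 100) w‖ ≤ 2.1 * c := by
    intro z w c hc
    have hc0 : 0 ≤ c := (norm_nonneg _).trans hc
    refine (kd_lip h99 _ _).trans ?_
    calc 2 / (99 / 100) ^ 3 * ‖z - w‖ ≤ 2 / (99 / 100) ^ 3 * c := by gcongr
      _ ≤ 2.1 * c := by
          apply mul_le_mul_of_nonneg_right _ hc0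
          norm_num
  have hA := hk n1
  have hB := hk n2
  have hC := hk hab
  have h01 : |(m 0 - mh 0) + (m 1 - mh 1)| ≤ 2 * κ := (abs_add_le _ _).trans (by linarith)
  have h12 : |(m 1 - mh 1) + (m 2 - mh 2)| ≤ 2 * κ := (abs_add_le _ _).trans (by linarith)
  have tA : ‖(FA P0 m x.1 x.2.1 - FA P0 m y.1 y.2.1) - (FA P0 mh x.1 x.2.1 - FA P0 mh y.1 y.2.1)‖ ≤ 12 * κ * r := by
    have e : (FA P0 m x.1 x.2.1 - FA P0 m y.1 y.2.1) - (FA P0 mh x.1 x.2.1 - FA P0 mh y.1 y.2.1) =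
        -(((m 0 - mh 0) + (m 1 - mh 1) : ℝ) • (kd (99 / 100) x.1 - kd (99 / 100) y.1)) -
        ((m 2 - mh 2 : ℝ) • (kd (99 / 100) (x.1 + x.2.1) - kd (99 / 100) (y.1 + y.2.1))) +
        (m 2 - mh 2 : ℝ) • (kd (99 / 100) x.2.1 - kd (99 / 100) y.2.1) := by
      simp only [FA0, sub_smul, add_smul, smul_sub]; abel
    rw [e]
    calc _ ≤ ‖((m 0 - mh 0) + (m 1 - mh 1) : ℝ) • (kd (99 / 100) x.1 - kd (99 / 100) y.1)‖ +
        ‖(m 2 - mh 2 : ℝ) • (kd (99 / 100) (x.1 + x.2.1) - kd (99 / 100) (y.1 + y.2.1))‖ +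
        ‖(m 2 - mh 2 : ℝ) • (kd (99 / 100) x.2.1 - kd (99 / 100) y.2.1)‖ := by
          refine (norm_add_le _ _).trans ?_
          gcongr
          refine (norm_sub_le _ _).trans ?_
          rw [norm_neg]
      _ ≤ 2 * κ * (2.1 * r) + κ * (2.1 * (2 * r)) + κ * (2.1 * r) := by
          rw [norm_smul, norm_smul, norm_smul, Real.norm_eq_abs, Real.norm_eq_abs]
          gcongr
      _ ≤ 12 * κ * r := by
          have : 0 ≤ κ * r := mul_nonneg hκ hr0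
          norm_num at this ⊢
          linarith
  have tB : ‖(FB P0 m x.1 x.2.1 - FB P0 m y.1 y.2.1) - (FB P0 mh x.1 x.2.1 - FB P0 mh y.1 y.2.1)‖ ≤ 12 * κ * r := by
    have e : (FB P0 m x.1 x.2.1 - FB P0 m y.1 y.2.1) - (FB P0 mh x.1 x.2.1 - FB P0 mh y.1 y.2.1) =
        ((m 0 - mh 0 : ℝ) • (kd (99 / 100) x.1 - kd (99 / 100) y.1)) -
        ((m 0 - mh 0 : ℝ) • (kd (99 / 100) (x.1 + x.2.1) - kd (99 / 100) (y.1 + y.2.1))) -
        ((m 1 - mh 1) + (m 2 - mh 2) : ℝ) • (kd (99 / 100) x.2.1 - kd (99 / 100) y.2.1) := by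
      simp only [FB0, sub_smul, add_smul, smul_sub]; abel
    rw [e]
    calc _ ≤ ‖(m 0 - mh 0 : ℝ) • (kd (99 / 100) x.1 - kd (99 / 100) y.1)‖ +
        ‖(m 0 - mh 0 : ℝ) • (kd (99 / 100) (x.1 + x.2.1) - kd (99 / 100) (y.1 + y.2.1))‖ +
        ‖((m 1 - mh 1) + (m 2 - mh 2) : ℝ) • (kd (99 / 100) x.2.1 - kd (99 / 100) y.2.1)‖ := by
          refine (norm_sub_le _ _).trans ?_
          gcongr
          exact norm_sub_le _ _
      _ ≤ κ * (2.1 * r) + κ * (2.1 * (2 * r)) + 2 * κ * (2.1 * r) := by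
          rw [norm_smul, norm_smul, norm_smul, Real.norm_eq_abs, Real.norm_eq_abs]
          gcongr
      _ ≤ 12 * κ * r := by
          have : 0 ≤ κ * r := mul_nonneg hκ hr0
          norm_num at this ⊢
          linarith
  have hpos : 0 ≤ κ * r := by positivity
  have hs' : ∀ z : ℂ, ‖z‖ ≤ 12 * κ * r → ‖P0.sg⁻¹ • z‖ ≤ 6 * κ * r := fun z hz => by
    have n5 : ‖(2 / 7 : ℝ)‖ = 2 / 7 := by norm_num
    rw [norm_smul, sg_inv, n5]
    linarith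
  have hpos' : 0 ≤ 6 * κ * r := by positivity
  rw [Prod.norm_def, Prod.norm_def, Prod.norm_def]
  refine max_le ?_ (max_le ?_ (max_le ?_ ?_))
  · show ‖(P0.sg • x.2.2.1 - P0.sg • y.2.2.1) - (P0.sg • x.2.2.1 - P0.sg • y.2.2.1)‖ ≤ _
    rw [sub_self, norm_zero]; exact hpos'
  · show ‖(P0.sg • x.2.2.2 - P0.sg • y.2.2.2) - (P0.sg • x.2.2.2 - P0.sg • y.2.2.2)‖ ≤ _
    rw [sub_self, norm_zero]; exact hpos'
  · show ‖(P0.sg⁻¹ • FA P0 m x.1 x.2.1 - P0.sg⁻¹ • FA P0 m y.1 y.2.1) -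
      (P0.sg⁻¹ • FA P0 mh x.1 x.2.1 - P0.sg⁻¹ • FA P0 mh y.1 y.2.1)‖ ≤ _
    rw [← smul_sub, ← smul_sub, ← smul_sub]
    exact hs' _ tA
  · show ‖(P0.sg⁻¹ • FB P0 m x.1 x.2.1 - P0.sg⁻¹ • FB P0 m y.1 y.2.1) -
      (P0.sg⁻¹ • FB P0 mh x.1 x.2.1 - P0.sg⁻¹ • FB P0 mh y.1 y.2.1)‖ ≤ _
    rw [← smul_sub, ← smul_sub, ← smul_sub]
    exact hs' _ tB

/-- the unit vector in the direction of the conjugate -/
noncomputable def uv (b : ℂ) : ℂ := ((1 / ‖b‖ : ℝ) : ℂ) * conj b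

lemma norm_uv {b : ℂ} (hb : b ≠ 0) : ‖uv b‖ = 1 := by
  have h : 0 < ‖b‖ := norm_pos_iff.2 hb
  rw [uv, norm_mul, Complex.norm_real, Real.norm_of_nonneg (by positivity), Complex.norm_conj]
  field_simp

lemma hasDerivAt_uv {b : ℝ → ℂ} {b' : ℂ} {t : ℝ} (hb : HasDerivAt b b' t) (h0 : b t ≠ 0) :
    HasDerivAt (fun s => uv (b s)) (-(I * (dtm (b t) b' / ‖b t‖ ^ 2 : ℝ)) * uv (b t)) t := by
  have hr : 0 < ‖b t‖ := norm_pos_iff.2 h0
  have h1 := (hasDerivAt_inv_norm hb h0).ofReal_comp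
  have h2 : HasDerivAt (fun s => conj (b s)) (conj b') t :=
    (Complex.conjCLE.toContinuousLinearMap.hasFDerivAt (x := b t)).comp_hasDerivAt t hb
  refine (h1.fun_mul h2).congr_deriv ?_
  have hr2 : ‖b t‖ ^ 2 = (b t).re * (b t).re + (b t).im * (b t).im := by rw [← ip_self, ip]
  set r := ‖b t‖ with hrr
  have e1 : ((-ip (b t) b' / r ^ 3 : ℝ) : ℂ) * conj (b t) + ((1 / r : ℝ) : ℂ) * conj b' =
      ((1 / r ^ 3 : ℝ) : ℂ) * (-(ip (b t) b' : ℂ) * conj (b t) + ((r ^ 2 : ℝ) : ℂ) * conj b') := by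
    have : (r : ℂ) ≠ 0 := by exact_mod_cast hr.ne'
    push_cast
    field_simp
  have e2 : -(I * (dtm (b t) b' / r ^ 2 : ℝ)) * uv (b t) =
      ((1 / r ^ 3 : ℝ) : ℂ) * (-(I * dtm (b t) b') * conj (b t)) := by
    have : (r : ℂ) ≠ 0 := by exact_mod_cast hr.ne'
    rw [uv, ← hrr]
    push_cast
    field_simp
  rw [e1, e2, hr2]
  congr 1
  apply Complex.ext
  · simp only [ip, dtm, Complex.add_re, Complex.mul_re, Complex.mul_im, Complex.neg_re, Complex.neg_im,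
      Complex.conj_re, Complex.conj_im, Complex.ofReal_re, Complex.ofReal_im, Complex.I_re, Complex.I_im]
    ring
  · simp only [ip, dtm, Complex.add_im, Complex.mul_re, Complex.mul_im, Complex.neg_re, Complex.neg_im,
      Complex.conj_re, Complex.conj_im, Complex.ofReal_re, Complex.ofReal_im, Complex.I_re, Complex.I_im]
    ring

lemma dtm_eq (b c : ℂ) : dtm b c = (conj b * c).im := by
  rw [dtm, Complex.mul_im, Complex.conj_re, Complex.conj_im]; ring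

lemma frame_close {γ : E} {u : ℂ} {κ : ℝ} (hu : ‖u‖ = 1) (hκ : κ ≤ 1 / 10) (h : ‖γ - u • xre‖ ≤ κ) :
    γ.2.1 ≠ 0 ∧ ‖uv γ.2.1 • γ - xre‖ ≤ 4 * κ ∧
      |dtm γ.2.1 (P0.sg • γ.2.2.2) / ‖γ.2.1‖ ^ 2 - s3| ≤ 18 * κ := by
  have hκ0 : 0 ≤ κ := (norm_nonneg _).trans h
  set b := γ.2.1 with hb
  have h1 : ‖b - u‖ ≤ κ := by
    have h1' : ‖b - u * 1‖ ≤ κ :=
      ((norm_fst_le (γ - u • xre).2).trans (norm_snd_le (γ - u • xre))).trans h
    rwa [mul_one] at h1'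
  have hb1 : ‖b‖ ≤ 1 + κ := by
    have := norm_sub_norm_le b u
    rw [hu] at this
    linarith
  have hb2 : 1 - κ ≤ ‖b‖ := by
    have := norm_sub_norm_le u b
    rw [hu, norm_sub_rev] at this
    linarith
  have hb3 : 9 / 10 ≤ ‖b‖ := by linarith
  have hb0 : b ≠ 0 := norm_pos_iff.1 (by linarith)
  have hbp : 0 < ‖b‖ := norm_pos_iff.2 hb0
  have hv := norm_uv hb0
  have huv : ‖uv b * u - 1‖ ≤ 23 / 10 * κ := by
    have hne : (‖b‖ : ℂ) ≠ 0 := by exact_mod_cast hbp.ne'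
    have huu : conj u * u = 1 := by
      rw [mul_comm, Complex.mul_conj, Complex.normSq_eq_norm_sq, hu]; norm_num
    have e : uv b * u - 1 = ((1 / ‖b‖ : ℝ) : ℂ) * (((1 - ‖b‖ : ℝ) : ℂ) + conj (b - u) * u) := by
      rw [uv, map_sub]
      have : (conj b - conj u) * u = conj b * u - (conj u * u) := by ring
      rw [this, huu]
      push_cast
      field_simp
      ring
    rw [e, norm_mul, Complex.norm_real, Real.norm_of_nonneg (by positivity)]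
    have h3 : ‖((1 - ‖b‖ : ℝ) : ℂ) + conj (b - u) * u‖ ≤ 2 * κ := by
      refine (norm_add_le _ _).trans ?_
      rw [Complex.norm_real, norm_mul, Complex.norm_conj, hu, mul_one, Real.norm_eq_abs]
      have : |1 - ‖b‖| ≤ κ := by rw [abs_le]; constructor <;> linarith
      linarith
    calc 1 / ‖b‖ * ‖((1 - ‖b‖ : ℝ) : ℂ) + conj (b - u) * u‖ ≤ 1 / (9 / 10) * (2 * κ) := by
          gcongr
      _ ≤ 23 / 10 * κ := by
          norm_num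
          linarith
  have hΓ : ‖uv b • γ - xre‖ ≤ 4 * κ := by
    have e : uv b • γ - xre = uv b • (γ - u • xre) + (uv b * u - 1) • xre := by
      rw [smul_sub, sub_smul, one_smul, mul_smul]; abel
    rw [e]
    refine (norm_add_le _ _).trans ?_
    rw [norm_smul, norm_smul, hv, one_mul]
    have := norm_xre_le
    have h4 : ‖uv b * u - 1‖ * ‖xre‖ ≤ 23 / 10 * κ * 1 := by gcongr
    linarith
  refine ⟨hb0, hΓ, ?_⟩
  set w := uv b * (P0.sg • γ.2.2.2) with hw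
  have hwc : ‖w - I * s3‖ ≤ 14 * κ := by
    have e : w - I * s3 = P0.sg • ((uv b • γ - xre).2.2.2) := by
      show uv b * (P0.sg • γ.2.2.2) - I * s3 = P0.sg • (uv b * γ.2.2.2 - P0.sg⁻¹ • (I * (s3 : ℂ)))
      rw [smul_sub, smul_smul, mul_inv_cancel₀ P0.sg0.ne', one_smul]
      simp only [Complex.real_smul]
      ring
    rw [e, norm_smul, Real.norm_of_nonneg P0.sg0.le]
    have h5 : ‖(uv b • γ - xre).2.2.2‖ ≤ 4 * κ :=
      (norm_snd_le (uv b • γ - xre).2.2).trans ((norm_snd_le (uv b • γ - xre).2).trans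
        ((norm_snd_le (uv b • γ - xre)).trans hΓ))
    rw [P0_sg]
    linarith
  have hwi : |w.im - s3| ≤ 14 * κ := by
    have e : w.im - s3 = (w - I * s3).im := by simp
    rw [e]
    exact (Complex.abs_im_le_norm _).trans hwc
  have hd : dtm b (P0.sg • γ.2.2.2) = ‖b‖ * w.im := by
    have e : conj b * (P0.sg • γ.2.2.2) = ((‖b‖ : ℝ) : ℂ) * w := by
      have hne : (‖b‖ : ℂ) ≠ 0 := by exact_mod_cast hbp.ne'
      rw [hw, uv]; push_cast; field_simp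
    rw [dtm_eq, e, Complex.im_ofReal_mul]
  rw [hd]
  have e2 : ‖b‖ * w.im / ‖b‖ ^ 2 - s3 = (w.im - s3 * ‖b‖) / ‖b‖ := by field_simp
  rw [e2, abs_div, abs_of_pos hbp, div_le_iff₀ hbp]
  have ho := s3_pos
  have ho1 : s3 < 1.74 := s3_lt.trans (by norm_num)
  obtain ⟨w1', w2'⟩ := abs_le.1 hwi
  have : |w.im - s3 * ‖b‖| ≤ 16 * κ := by
    norm_num at ho1
    rw [abs_le]
    constructor
    · have h6 : s3 * ‖b‖ ≤ s3 + 2 * κ := by nlinarith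
      linarith
    · have h6 : s3 - 2 * κ ≤ s3 * ‖b‖ := by nlinarith
      linarith
  nlinarith

end Pool.Agent.T9h50.TW
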