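import Pool.Agent.T9h50.TW.Wph
import Pool.Agent.T9h50.TM.Phd2

/-!
# The end of the unstable manifold segment
-/

set_option autoImplicit false
set_option exponentiation.threshold 3000

open scoped NNReal ComplexConjugate Topology
open Complex Set Filter

namespace Pool.Agent.T9h50.TW

open Pool.Agent.T9h50.TL (ev2)
open Pool.Agent.T9h50.TM (Par FA FB fld mh mh0 mh1 mh2 NearM FA_lip FB_lip LipOK fld_lip FA_rot FB_rot fld_rot FA_mass FB_mass Far FA_congr FB_congr cnv PG Q0 u0 stE SR SR_pos lipG LeP far_cnv glue cnv_cnv cnv_dist phases)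

open Pool.Agent.T9h50.TB (E kd kd_eq ip dtm ip_self evR)

/-- numerator and denominator of the value at `672381 / 10 ^ 6` -/
def hv1 : List Int → Int × Nat
  | [] => (0, 1)
  | c :: p => match hv1 p with
    | (N, D) => (Int.add (Int.mul c (Int.mul (Int.ofNat 1000000) (Int.ofNat D))) (Int.mul (Int.ofNat 672381) N),
        Nat.mul 1000000 D)

/-- numerator and denominator of the value at `(672381 / 10 ^ 6, 740204 / 10 ^ 6)` -/
def hv2 : List (List Int) → Int × Nat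
  | [] => (0, 1)
  | p :: P => match hv1 p, hv2 P with
    | (N1, D1), (N2, D2) =>
      (Int.add (Int.mul N1 (Int.mul (Int.ofNat 1000000) (Int.ofNat D2)))
        (Int.mul (Int.ofNat 740204) (Int.mul N2 (Int.ofNat D1))), Nat.mul D1 (Nat.mul 1000000 D2))

lemma hv1_sound (p : List Int) : 0 < (hv1 p).2 ∧ evR p (672381 / 1000000) = (hv1 p).1 / (hv1 p).2 := by
  induction p with
  | nil => exact ⟨Nat.one_pos, by simp [evR, hv1]⟩
  | cons c p ih =>
    obtain ⟨h1, h2⟩ := ih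
    have e1 : (hv1 (c :: p)).1 = c * (1000000 * ((hv1 p).2 : ℤ)) + 672381 * (hv1 p).1 := rfl
    have e2 : (hv1 (c :: p)).2 = 1000000 * (hv1 p).2 := rfl
    have h3 : (0 : ℝ) < (hv1 p).2 := by exact_mod_cast h1
    refine ⟨by rw [e2]; omega, ?_⟩
    rw [evR, h2, e1, e2]
    push_cast
    field_simp

lemma hv2_sound (P : List (List Int)) : 0 < (hv2 P).2 ∧
    ev2 P (672381 / 1000000) (740204 / 1000000) = (hv2 P).1 / (hv2 P).2 := by
  induction P with
  | nil => exact ⟨Nat.one_pos, by simp [ev2, hv2]⟩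
  | cons p P ih =>
    obtain ⟨h1, h2⟩ := ih
    obtain ⟨k1, k2⟩ := hv1_sound p
    have e1 : (hv2 (p :: P)).1 = (hv1 p).1 * (1000000 * ((hv2 P).2 : ℤ)) + 740204 * ((hv2 P).1 * ((hv1 p).2 : ℤ)) := rfl
    have e2 : (hv2 (p :: P)).2 = (hv1 p).2 * (1000000 * (hv2 P).2) := rfl
    have h3 : (0 : ℝ) < (hv2 P).2 := by exact_mod_cast h1
    have k3 : (0 : ℝ) < (hv1 p).2 := by exact_mod_cast k1
    refine ⟨by rw [e2]; exact Nat.mul_pos k1 (by omega), ?_⟩
    rw [ev2, k2, h2, e1, e2]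
    push_cast
    field_simp

/-- comparison with a decimal number -/
def chq (P : List (List Int)) (q : Int) : Bool :=
  match hv2 P with
  | (N, D) => Nat.ble (Int.natAbs (Int.sub (Int.mul N (Int.ofNat (Nat.pow 10 45)))
      (Int.mul q (Int.mul (Int.ofNat D) (Int.ofNat (Nat.pow 2 256)))))) (Nat.mul D (Nat.pow 2 256))

lemma chq_sound {P : List (List Int)} {q : Int} (h : chq P q = true) :
    |nx P (672381 / 1000000) (740204 / 1000000) - q / 10 ^ 45| ≤ 1 / 10 ^ 45 := by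
  obtain ⟨h1, h2⟩ := hv2_sound P
  have h3 : (0 : ℝ) < (hv2 P).2 := by exact_mod_cast h1
  have e : chq P q = Nat.ble (Int.natAbs ((hv2 P).1 * ((10 ^ 45 : ℕ) : ℤ) -
    q * (((hv2 P).2 : ℤ) * ((2 ^ 256 : ℕ) : ℤ)))) ((hv2 P).2 * 2 ^ 256) := rfl
  rw [e] at h
  have k := Nat.le_of_ble_eq_true h
  have k2 : |(hv2 P).1 * ((10 ^ 45 : ℕ) : ℤ) - q * (((hv2 P).2 : ℤ) * ((2 ^ 256 : ℕ) : ℤ))| ≤
      ((hv2 P).2 : ℤ) * 2 ^ 256 := by
    rw [Int.abs_eq_natAbs]
    exact_mod_cast k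
  have k3 : |((hv2 P).1 : ℝ) * 10 ^ 45 - (q : ℝ) * (((hv2 P).2 : ℝ) * 2 ^ 256)| ≤
      ((hv2 P).2 : ℝ) * 2 ^ 256 := by
    exact_mod_cast k2
  have hp : (0 : ℝ) < (hv2 P).2 * 2 ^ 256 * 10 ^ 45 := by positivity
  have e2 : nx P (672381 / 1000000) (740204 / 1000000) - q / 10 ^ 45 =
      (((hv2 P).1 : ℝ) * 10 ^ 45 - (q : ℝ) * (((hv2 P).2 : ℝ) * 2 ^ 256)) /
        ((hv2 P).2 * 2 ^ 256 * 10 ^ 45) := by
    rw [nx, h2, SWR]
    field_simp
  rw [e2, abs_div, abs_of_pos hp, div_le_div_iff₀ hp (by positivity)]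
  nlinarith

theorem q1 : chq WxA (Int.negSucc 499327321667477990367431090090993204689241934) = true := by decide +kernel
theorem q2 : chq WyA (Int.negSucc 500427277969809459951442916141744724723684107) = true := by decide +kernel
theorem q3 : chq WxB (Int.ofNat 999022675277463663875887379190432601277097507) = true := by decide +kernel
theorem q4 : chq WyB (Int.negSucc 122269035229276353312760635441094526947998) = true := by decide +kernel
theorem q5 : chq WpA (Int.ofNat 1500823650045460939648781839608444934577337238) = true := by decide +kernel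
theorem q6 : chq WqA (Int.negSucc 500523180694253395804853133032954215710182793) = true := by decide +kernel
theorem q7 : chq WpB (Int.negSucc 1198057164077176429064415171789277717309904) = true := by decide +kernel
theorem q8 : chq WqB (Int.ofNat 999850753124812975132211967313166729596627150) = true := by decide +kernel

lemma norm_mk_le3' {a b c : ℝ} (ha : |a| ≤ c) (hb : |b| ≤ c) : ‖(⟨a, b⟩ : ℂ)‖ ≤ 2 * c := by
  refine (Complex.norm_le_abs_re_add_abs_im _).trans ?_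
  show |a| + |b| ≤ _
  linarith

lemma s3_near : |s3 - 17320508075688772935274463415058723669428052538103806 / 10 ^ 52| ≤ 1 / 10 ^ 50 := by
  have h1 := s3_sq
  have h2 := s3_pos
  rw [abs_le]
  constructor
  · have : 17320508075688772935274463415058723669428052538103800 / 10 ^ 52 ≤ s3 := by
      by_contra h
      push Not at h
      have : s3 * s3 < (17320508075688772935274463415058723669428052538103800 / 10 ^ 52) *
        (17320508075688772935274463415058723669428052538103800 / 10 ^ 52) := by nlinarith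
      norm_num at this h1
      linarith
    norm_num at this ⊢
    linarith
  · have : s3 ≤ 17320508075688772935274463415058723669428052538103900 / 10 ^ 52 := by
      by_contra h
      push Not at h
      have : (17320508075688772935274463415058723669428052538103900 / 10 ^ 52) *
        (17320508075688772935274463415058723669428052538103900 / 10 ^ 52) < s3 * s3 := by nlinarith
      norm_num at this h1
      linarith
    norm_num at this ⊢
    linarith

lemma s3_mul_near {x q r : ℝ} (hx : |x - q / 10 ^ 45| ≤ 1 / 10 ^ 45) (hq : |q / 10 ^ 45| ≤ 3)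
    (h : |17320508075688772935274463415058723669428052538103806 / 10 ^ 52 * (q / 10 ^ 45) - r| ≤ 5 / 10 ^ 44) :
    |s3 * x - r| ≤ 6 / 10 ^ 44 := by
  have h1 := s3_near
  have h2 := s3_pos
  have h3 := s3_lt
  have e1 : s3 * x - r = s3 * (x - q / 10 ^ 45) +
      (s3 - 17320508075688772935274463415058723669428052538103806 / 10 ^ 52) * (q / 10 ^ 45) +
      (17320508075688772935274463415058723669428052538103806 / 10 ^ 52 * (q / 10 ^ 45) - r) := by ring
  rw [e1]
  refine (abs_add_le _ _).trans ?_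
  refine (add_le_add (abs_add_le _ _) le_rfl).trans ?_
  rw [abs_mul, abs_mul, abs_of_pos h2]
  have h4 : |s3 - 17320508075688772935274463415058723669428052538103806 / 10 ^ 52| * |q / 10 ^ 45| ≤ 1 / 10 ^ 50 * 3 :=
    mul_le_mul h1 hq (abs_nonneg _) (by norm_num)
  have h5 : s3 * |x - q / 10 ^ 45| ≤ 2 * (1 / 10 ^ 45) :=
    mul_le_mul (by norm_num at h3; linarith) hx (abs_nonneg _) (by norm_num)
  norm_num at h4 h5 h ⊢
  linarith

lemma cw_near {X Y : List (List Int)} {qx qy : Int} (hx : chq X qx = true) (hy : chq Y qy = true)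
    {r s : ℝ} (h1 : |(qx : ℝ) / 10 ^ 45 - r| ≤ 5 / 10 ^ 44) (hq : |(qy : ℝ) / 10 ^ 45| ≤ 3)
    (h2 : |17320508075688772935274463415058723669428052538103806 / 10 ^ 52 * ((qy : ℝ) / 10 ^ 45) - s| ≤ 5 / 10 ^ 44) :
    ‖cw X Y (672381 / 1000000) (740204 / 1000000) - ⟨r, s⟩‖ ≤ 2 / 10 ^ 43 := by
  have kx := chq_sound hx
  have ky := chq_sound hy
  have e : cw X Y (672381 / 1000000) (740204 / 1000000) - ⟨r, s⟩ =
      ⟨nx X (672381 / 1000000) (740204 / 1000000) - r, s3 * nx Y (672381 / 1000000) (740204 / 1000000) - s⟩ := rfl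
  rw [e]
  have p1 : |nx X (672381 / 1000000) (740204 / 1000000) - r| ≤ 6 / 10 ^ 44 := by
    have e1 : nx X (672381 / 1000000) (740204 / 1000000) - r = (nx X (672381 / 1000000) (740204 / 1000000) - qx / 10 ^ 45) +
      (qx / 10 ^ 45 - r) := by ring
    rw [e1]
    refine (abs_add_le _ _).trans ?_
    norm_num at kx h1 ⊢
    linarith
  refine (norm_mk_le3' p1 (s3_mul_near ky hq h2)).trans ?_
  norm_num

lemma zc_zero : (zc 0).re = 672381 / 1000000 ∧ (zc 0).im = 740204 / 1000000 := by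
  constructor <;> simp [zc]

lemma cu_zero : dist (cnv P0 TM.P0 (cu 0)) (stE Q0 u0) ≤ 1 / 10 ^ 42 := by
  have c0 : cu 0 = wz P0 (672381 / 1000000) (740204 / 1000000) := by
    rw [cu, rot_zero, one_smul, cE0, zc_zero.1, zc_zero.2]
  have hSR : SR = 2 ^ 160 := rfl
  have p1 : ‖cw WxA WyA (672381 / 1000000) (740204 / 1000000) - ⟨u0.ax0 / SR, u0.ay0 / SR⟩‖ ≤ 2 / 10 ^ 43 := by
    apply cw_near q1 q2
    · rw [hSR]; norm_num [u0, abs_le]
    · norm_num [abs_le]
    · rw [hSR]; norm_num [u0, abs_le]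
  have p2 : ‖cw WxB WyB (672381 / 1000000) (740204 / 1000000) - ⟨u0.bx0 / SR, u0.bt0 / SR⟩‖ ≤ 2 / 10 ^ 43 := by
    apply cw_near q3 q4
    · rw [hSR]; norm_num [u0, abs_le]
    · norm_num [abs_le]
    · rw [hSR]; norm_num [u0, abs_le]
  have p3 : ‖cw WpA WqA (672381 / 1000000) (740204 / 1000000) - ⟨8 * (u0.ax1 / SR), 8 * (u0.ay1 / SR)⟩‖ ≤ 2 / 10 ^ 43 := by
    apply cw_near q5 q6
    · rw [hSR]; norm_num [u0, abs_le]
    · norm_num [abs_le]
    · rw [hSR]; norm_num [u0, abs_le]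
  have p4 : ‖cw WpB WqB (672381 / 1000000) (740204 / 1000000) - ⟨8 * (u0.bx1 / SR), 8 * (u0.bt1 / SR)⟩‖ ≤ 2 / 10 ^ 43 := by
    apply cw_near q7 q8
    · rw [hSR]; norm_num [u0, abs_le]
    · norm_num [abs_le]
    · rw [hSR]; norm_num [u0, abs_le]
  have hs : (P0.sg / TM.P0.sg) * P0.sg⁻¹ = TM.P0.sg⁻¹ := by
    have := P0.sg0.ne'
    have := TM.P0.sg0.ne'
    field_simp
  have hv : ∀ (z : ℂ) (x y : ℝ), (P0.sg / TM.P0.sg) • (P0.sg⁻¹ • z) - ((8 : ℕ) / TM.P0.sg : ℝ) • (⟨x, y⟩ : ℂ) =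
      TM.P0.sg⁻¹ • (z - ⟨8 * x, 8 * y⟩) := by
    intro z x y
    rw [smul_smul, hs, smul_sub]
    congr 1
    have := TM.P0.sg0.ne'
    apply Complex.ext
    · simp only [Complex.smul_re, smul_eq_mul]; push_cast; field_simp
    · simp only [Complex.smul_im, smul_eq_mul]; push_cast; field_simp
  have hs' : ∀ z : ℂ, ‖z‖ ≤ 2 / 10 ^ 43 → ‖TM.P0.sg⁻¹ • z‖ ≤ 1 / 10 ^ 42 := fun z hz => by
    have : TM.P0.sg = 3312 / 1000 := rfl
    rw [norm_smul, Real.norm_of_nonneg (inv_pos.2 TM.P0.sg0).le, this]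
    norm_num at hz ⊢
    linarith
  rw [dist_eq_norm, c0, Prod.norm_def, Prod.norm_def, Prod.norm_def]
  refine max_le (p1.trans (by norm_num)) (max_le (p2.trans (by norm_num)) (max_le ?_ ?_))
  · show ‖(P0.sg / TM.P0.sg) • (P0.sg⁻¹ • cw WpA WqA (672381 / 1000000) (740204 / 1000000)) -
      ((8 : ℕ) / TM.P0.sg : ℝ) • (⟨u0.ax1 / SR, u0.ay1 / SR⟩ : ℂ)‖ ≤ _
    rw [hv]
    exact hs' _ p3
  · show ‖(P0.sg / TM.P0.sg) • (P0.sg⁻¹ • cw WpB WqB (672381 / 1000000) (740204 / 1000000)) -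
      ((8 : ℕ) / TM.P0.sg : ℝ) • (⟨u0.bx1 / SR, u0.bt1 / SR⟩ : ℂ)‖ ≤ _
    rw [hv]
    exact hs' _ p4

lemma le0 : LeP PG P0 := ⟨by norm_num [PG, P0], by norm_num [PG, P0], by norm_num [PG, P0]⟩

lemma exp_77 : Real.exp (351 / 100 * 22) ≤ 4 * 10 ^ 33 := by
  have h1 := Real.exp_one_lt_d9
  have e : Real.exp (351 / 100 * 22) = Real.exp 1 ^ 77 * Real.exp (22 / 100) := by
    rw [← Real.exp_nat_mul, ← Real.exp_add]
    congr 1
    norm_num
  have h2 : Real.exp (22 / 100) ≤ 125 / 100 := by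
    refine (Real.exp_bound' (by norm_num) (by norm_num) (n := 5) (by norm_num)).trans ?_
    norm_num [Finset.sum_range_succ, Nat.factorial]
  rw [e]
  calc Real.exp 1 ^ 77 * Real.exp (22 / 100) ≤ 2.7182818286 ^ 77 * (125 / 100) := by gcongr
    _ ≤ 4 * 10 ^ 33 := by norm_num

lemma exp_al : Real.exp (alW * (-22)) ≤ 6 / 10 ^ 12 := by
  have h1 := Real.exp_one_gt_d9
  have e : Real.exp (alW * (-22)) ≤ (Real.exp 1 ^ 26)⁻¹ := by
    rw [← Real.exp_nat_mul, ← Real.exp_neg]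
    apply Real.exp_le_exp.2
    have := alW_gt
    norm_num at this ⊢
    linarith
  refine e.trans ?_
  have h2 : (2.7182818283 : ℝ) ^ 26 ≤ Real.exp 1 ^ 26 := by gcongr
  refine (inv_anti₀ (by norm_num) h2).trans ?_
  norm_num

/-- every solution which starts near the curve escapes -/
theorem escape_cu {m : Fin 3 → ℝ} (hm : NearM (1 / 10 ^ 75) m) {Y : ℝ → E}
    (hY : ∀ t, -22 ≤ t → HasDerivAt Y (fld PG m (Y t)) t) {y0 : E} (h0 : Y (-22) = cnv P0 PG y0)
    (hd : dist y0 (cu (-22)) ≤ 1 / 10 ^ 69) {t : ℝ} (ht : -22 ≤ t) :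
    Far PG 0 (Y t) ∧ (87 / 8 ≤ t → 3 / 2 + 35 / 100 * (t - 87 / 8) ≤ ‖(Y t).1‖) := by
  have hm6 : NearM (1 / 10 ^ 6) m := hm.mono (by norm_num)
  obtain ⟨α, hα0, hα⟩ := TB.exists_forward (fld P0 m) _ (fld_lip lip0 hm6) y0
  set y : ℝ → E := fun t => α (t - -22) with hy
  have hyd : ∀ t, -22 ≤ t → HasDerivAt y (fld P0 m (y t)) t := by
    intro t ht
    exact (hα (t - -22) (by linarith)).comp_sub_const t (-22)
  have hy0 : y (-22) = y0 := by simp only [hy, sub_self, hα0]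
  have hcmp : ∀ t ∈ Icc (-22 : ℝ) 0, dist (y t) (cu t) ≤ 5 / 10 ^ 36 := by
    intro t ht
    have h1 := cu_cmp (c := 1 / 10 ^ 69) hm (by norm_num) (by norm_num) (fun s hs => hyd s hs.1) (by rw [hy0]; exact hd) ht
    have h2 : Real.exp (351 / 100 * (t - -22)) ≤ 4 * 10 ^ 33 :=
      (Real.exp_le_exp.2 (by linarith [ht.2])).trans exp_77
    have h3 : Real.exp (4 * alW * t) ≤ 1 := Real.exp_le_one_iff.2
      (mul_nonpos_of_nonneg_of_nonpos (by linarith [alW_gt]) ht.2)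
    have h4 := exp_al
    have h5 : (1 / 10 ^ 69 + 200 * (2 * (1 / 10 ^ 75) + 2 / 10 ^ 71 * Real.exp (alW * -22))) *
        Real.exp (351 / 100 * (t - -22)) ≤ (1 / 10 ^ 69 + 200 * (2 * (1 / 10 ^ 75) + 2 / 10 ^ 71 * (6 / 10 ^ 12))) *
        (4 * 10 ^ 33) := by
      have := Real.exp_pos (351 / 100 * (t - -22))
      gcongr
    norm_num at h1 h5 ⊢
    linarith
  have hfar : ∀ t ∈ Icc (-22 : ℝ) 0, Far P0 0 (y t) := by
    intro t ht
    have h1 := (cu_defect hm ht.2).2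
    exact (h1.of_dist (hcmp t ht)).mono (by norm_num)
  have hg : ∀ t ∈ Icc (-22 : ℝ) 0, Y t = cnv P0 PG (y t) := fun t ht =>
    glue le0 lipG hm6 (fun t ht => hY t ht.1) (fun t ht => hyd t ht.1) hfar (by rw [hy0]; exact h0) ht
  rcases le_or_gt t 0 with h1 | h1
  · refine ⟨?_, fun h2 => by linarith⟩
    rw [hg t ⟨ht, h1⟩, far_cnv]
    exact (hfar t ⟨ht, h1⟩).leP le0
  · have h2 : Y 0 = cnv TM.P0 PG (cnv P0 TM.P0 (y 0)) := by
      rw [cnv_cnv]; exact hg 0 ⟨by norm_num, le_rfl⟩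
    have h3 : dist (cnv P0 TM.P0 (y 0)) (stE Q0 u0) ≤ 1 / 10 ^ 35 := by
      have k1 := hcmp 0 ⟨by norm_num, le_rfl⟩
      have k2 := cnv_dist P0 TM.P0 (y 0) (cu 0) (c := 106 / 100) (by norm_num) (by simp only [P0, TM.P0]; norm_num)
      have k3 := dist_triangle (cnv P0 TM.P0 (y 0)) (cnv P0 TM.P0 (cu 0)) (stE Q0 u0)
      have k4 := cu_zero
      norm_num at k1 k2 k4 ⊢
      linarith
    exact phases (hm.mono (by norm_num)) (fun t ht => hY t (by linarith)) h2 h3 h1.le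

end Pool.Agent.T9h50.TW
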